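import Mathlib

/-!
# Locally pseudocompact king spaces are compact (MP_abcfaf_gt, Q1 and Q2)
-/

open Set Filter Topology

namespace Pool.Agent.Results.MP_abcfaf_gt.LocallyPseudocompactKing

/-- A weak selection on `X`, written as a symmetric function of two variables choosing one of its
two arguments (so `φ a a = a`; off the diagonal it is exactly a choice function on pairs). -/
def IsWeakSelection {X : Type*} (φ : X → X → X) : Prop :=
  (∀ a b, φ a b = φ b a) ∧ ∀ a b, φ a b = a ∨ φ a b = b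

/-- Continuity of a weak selection. -/
def ContinuousSelection {X : Type*} [TopologicalSpace X] (φ : X → X → X) : Prop :=
  ∀ a b : X, a ≠ b → ∀ W : Set X, IsOpen W → φ a b ∈ W →
    ∃ U V : Set X, IsOpen U ∧ IsOpen V ∧ a ∈ U ∧ b ∈ V ∧
      ∀ a' ∈ U, ∀ b' ∈ V, a' ≠ b' → φ a' b' ∈ W

/-- `a →_φ b`. -/
def Arrow {X : Type*} (φ : X → X → X) (a b : X) : Prop := a = b ∨ (a ≠ b ∧ φ a b = b)

/-- `z` is a `φ`-king. -/
def IsKing {X : Type*} (φ : X → X → X) (z : X) : Prop :=
  ∀ x, ∃ y, Arrow φ z y ∧ Arrow φ y x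

/-- `X` is a king space: every continuous weak selection has a king. -/
def KingSpace (X : Type*) [TopologicalSpace X] : Prop :=
  ∀ φ : X → X → X, IsWeakSelection φ → ContinuousSelection φ → ∃ z, IsKing φ z

/-- Some continuous weak selection exists. -/
def HasSelection (X : Type*) [TopologicalSpace X] : Prop :=
  ∃ φ : X → X → X, IsWeakSelection φ ∧ ContinuousSelection φ

/-- Pseudocompactness: every continuous real-valued function is bounded. -/
def Pseudocompact (Y : Type*) [TopologicalSpace Y] : Prop :=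
  ∀ f : Y → ℝ, Continuous f → ∃ M : ℝ, ∀ y, |f y| ≤ M

/-- Local pseudocompactness: every point has an open neighbourhood with pseudocompact closure. -/
def LocallyPseudocompact (X : Type*) [TopologicalSpace X] : Prop :=
  ∀ x : X, ∃ O : Set X, IsOpen O ∧ x ∈ O ∧ Pseudocompact (closure O)

/-! ## Relations -/

/-- A relation behaving like the (strict) arrow of a continuous weak selection. -/
structure Good {X : Type*} [TopologicalSpace X] (R : X → X → Prop) : Prop where
  asymm : ∀ a b, R a b → ¬ R b a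
  tot : ∀ a b, a ≠ b → R a b ∨ R b a
  loc : ∀ a b, R a b → ∃ U V : Set X, IsOpen U ∧ IsOpen V ∧ a ∈ U ∧ b ∈ V ∧
    ∀ x ∈ U, ∀ y ∈ V, R x y

/-- Kings of a relation. -/
def Kg {X : Type*} (R : X → X → Prop) (z : X) : Prop :=
  ∀ x, ∃ y, (z = y ∨ R z y) ∧ (y = x ∨ R y x)

/-- Every good relation has a king. -/
def Roy (X : Type*) [TopologicalSpace X] : Prop :=
  ∀ R : X → X → Prop, Good R → ∃ z, Kg R z

variable {X : Type*} [TopologicalSpace X]

theorem Good.op {R : X → X → Prop} (hR : Good R) : Good (fun a b => R b a) := by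
  constructor
  · intro a b hab
    exact hR.asymm b a hab
  · intro a b hab
    exact hR.tot b a hab.symm
  · intro a b h
    obtain ⟨U, V, hU, hV, ha, hb, h'⟩ := hR.loc b a h
    exact ⟨V, U, hV, hU, hb, ha, fun x hx y hy => h' y hy x hx⟩

theorem Good.ne {R : X → X → Prop} (hR : Good R) {a b : X} (h : R a b) : a ≠ b := by
  rintro rfl
  exact hR.asymm _ _ h h

theorem Good.of_not {R : X → X → Prop} (hR : Good R) {a b : X} (hab : a ≠ b) (h : ¬ R a b) :
    R b a := (hR.tot a b hab).resolve_left h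

theorem Good.open_right {R : X → X → Prop} (hR : Good R) (x : X) : IsOpen {c | R x c} := by
  rw [isOpen_iff_mem_nhds]
  intro c hc
  obtain ⟨U, V, _, hV, ha, hb, h'⟩ := hR.loc x c hc
  filter_upwards [hV.mem_nhds hb] with y hy
  exact h' x ha y hy

theorem Good.open_left {R : X → X → Prop} (hR : Good R) (x : X) : IsOpen {c | R c x} :=
  hR.op.open_right x

open Classical in
theorem roy_of_kingSpace (hX : KingSpace X) : Roy X := by
  intro R hR
  let φ : X → X → X := fun a b => if R a b then b else a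
  have h1 : ∀ a b, R a b → φ a b = b := by
    intro a b h
    simp only [φ, if_pos h]
  have h2 : ∀ a b, ¬ R a b → φ a b = a := by
    intro a b h
    simp only [φ, if_neg h]
  have hsel : IsWeakSelection φ := by
    constructor
    · intro a b
      by_cases hab : a = b
      · subst hab; rfl
      · by_cases h : R a b
        · rw [h1 a b h, h2 b a (hR.asymm _ _ h)]
        · rw [h2 a b h, h1 b a (hR.of_not hab h)]
    · intro a b
      by_cases h : R a b
      · right; exact h1 a b h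
      · left; exact h2 a b h
  have hcont : ContinuousSelection φ := by
    intro a b hab W hW hWab
    by_cases h : R a b
    · rw [h1 a b h] at hWab
      obtain ⟨U, V, hU, hV, ha, hb, h'⟩ := hR.loc a b h
      refine ⟨U, V ∩ W, hU, hV.inter hW, ha, ⟨hb, hWab⟩, ?_⟩
      intro a' ha' b' hb' _
      rw [h1 a' b' (h' a' ha' b' hb'.1)]
      exact hb'.2
    · have h3 : R b a := hR.of_not hab h
      rw [h2 a b h] at hWab
      obtain ⟨V, U, hV, hU, hb, ha, h'⟩ := hR.loc b a h3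
      refine ⟨U ∩ W, V, hU.inter hW, hV, ⟨ha, hWab⟩, hb, ?_⟩
      intro a' ha' b' hb' _
      rw [h2 a' b' (hR.asymm _ _ (h' b' hb' a' ha'.1))]
      exact ha'.2
  obtain ⟨z, hz⟩ := hX φ hsel hcont
  have key : ∀ a b, Arrow φ a b → a = b ∨ R a b := by
    intro a b h
    rcases h with h | ⟨hne, h⟩
    · exact Or.inl h
    · right
      by_contra h'
      rw [h2 a b h'] at h
      exact hne h
  refine ⟨z, fun x => ?_⟩
  obtain ⟨y, hy1, hy2⟩ := hz x
  exact ⟨y, key _ _ hy1, key _ _ hy2⟩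

theorem good_of_selection [T2Space X] {φ : X → X → X} (hs : IsWeakSelection φ)
    (hc : ContinuousSelection φ) : Good (fun a b => a ≠ b ∧ φ a b = b) := by
  constructor
  · rintro a b ⟨hab, h⟩ ⟨_, h'⟩
    apply hab
    rw [← h', hs.1 b a, h]
  · intro a b hab
    rcases hs.2 a b with h' | h'
    · right
      exact ⟨hab.symm, by rw [hs.1 b a, h']⟩
    · left
      exact ⟨hab, h'⟩
  · rintro a b ⟨hab, h⟩
    obtain ⟨A, B, hA, hB, haA, hbB, hAB⟩ := t2_separation hab
    obtain ⟨U, V, hU, hV, ha, hb, hUV⟩ := hc a b hab B hB (by rw [h]; exact hbB)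
    refine ⟨U ∩ A, V ∩ B, hU.inter hA, hV.inter hB, ⟨ha, haA⟩, ⟨hb, hbB⟩, ?_⟩
    intro x hx y hy
    have hne : x ≠ y := by
      intro h'
      exact (Set.disjoint_left.1 hAB) hx.2 (h' ▸ hy.2)
    refine ⟨hne, ?_⟩
    have h3 := hUV x hx.1 y hy.1 hne
    rcases hs.2 x y with h' | h'
    · rw [h'] at h3
      exact absurd h3 ((Set.disjoint_left.1 hAB) hx.2)
    · exact h'

/-! ## Glueing -/

/-- Points of larger level beat points of smaller level. -/
def glue (ν : X → ℕ) (R : X → X → Prop) : X → X → Prop :=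
  fun a b => (ν a = ν b ∧ R a b) ∨ ν b < ν a

theorem good_glue {ν : X → ℕ} (hν : IsLocallyConstant ν) {R : X → X → Prop} (hR : Good R) :
    Good (glue ν R) := by
  have hlev : ∀ a, ∃ U : Set X, IsOpen U ∧ a ∈ U ∧ ∀ x ∈ U, ν x = ν a := by
    intro a
    exact ⟨ν ⁻¹' {ν a}, hν {ν a}, rfl, fun x hx => hx⟩
  constructor
  · rintro a b (⟨h, h'⟩ | h) (⟨h1, h1'⟩ | h1)
    · exact hR.asymm _ _ h' h1'
    · omega
    · omega
    · omega
  · intro a b hab
    rcases lt_trichotomy (ν a) (ν b) with h | h | h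
    · exact Or.inr (Or.inr h)
    · rcases hR.tot a b hab with h' | h'
      · exact Or.inl (Or.inl ⟨h, h'⟩)
      · exact Or.inr (Or.inl ⟨h.symm, h'⟩)
    · exact Or.inl (Or.inr h)
  · intro a b h
    obtain ⟨A, hA, haA, hA'⟩ := hlev a
    obtain ⟨B, hB, hbB, hB'⟩ := hlev b
    rcases h with ⟨h, h'⟩ | h
    · obtain ⟨U, V, hU, hV, ha, hb, hUV⟩ := hR.loc a b h'
      refine ⟨U ∩ A, V ∩ B, hU.inter hA, hV.inter hB, ⟨ha, haA⟩, ⟨hb, hbB⟩, ?_⟩
      intro x hx y hy
      left
      exact ⟨by rw [hA' x hx.2, hB' y hy.2, h], hUV x hx.1 y hy.1⟩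
    · refine ⟨A, B, hA, hB, haA, hbB, ?_⟩
      intro x hx y hy
      right
      rw [hA' x hx, hB' y hy]
      exact h

omit [TopologicalSpace X] in
theorem glue_le {ν : X → ℕ} {R : X → X → Prop} {a b : X} (h : a = b ∨ glue ν R a b) :
    ν b ≤ ν a := by
  rcases h with h | ⟨h, _⟩ | h
  · rw [h]
  · exact h.ge
  · exact h.le

/-- Every locally constant function to the natural numbers is bounded. -/
def Bd (X : Type*) [TopologicalSpace X] : Prop :=
  ∀ ν : X → ℕ, IsLocallyConstant ν → ∃ N, ∀ x, ν x ≤ N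

theorem bd_of_roy (hX : Roy X) {R : X → X → Prop} (hR : Good R) : Bd X := by
  intro ν hν
  obtain ⟨z, hz⟩ := hX _ (good_glue hν hR)
  refine ⟨ν z, fun x => ?_⟩
  obtain ⟨y, hy1, hy2⟩ := hz x
  exact (glue_le hy2).trans (glue_le hy1)

open Classical in
/-- The indicator level of a clopen set. -/
noncomputable def ind (Z : Set X) : X → ℕ := fun x => if x ∈ Z then 1 else 0

omit [TopologicalSpace X] in
theorem ind_pos {Z : Set X} {x : X} (h : x ∈ Z) : ind Z x = 1 := by
  unfold ind; rw [if_pos h]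

omit [TopologicalSpace X] in
theorem ind_neg {Z : Set X} {x : X} (h : x ∉ Z) : ind Z x = 0 := by
  unfold ind; rw [if_neg h]

omit [TopologicalSpace X] in
theorem mem_of_ind {Z : Set X} {x : X} (h : 1 ≤ ind Z x) : x ∈ Z := by
  by_contra h'
  rw [ind_neg h'] at h
  omega

theorem ind_lc {Z : Set X} (hZ : IsClopen Z) : IsLocallyConstant (ind Z) := by
  rw [IsLocallyConstant.iff_eventually_eq]
  intro x
  by_cases h : x ∈ Z
  · filter_upwards [hZ.isOpen.mem_nhds h] with y hy
    rw [ind_pos h, ind_pos hy]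
  · filter_upwards [hZ.compl.isOpen.mem_nhds h] with y hy
    rw [ind_neg h, ind_neg hy]

theorem king_in (hX : Roy X) {R : X → X → Prop} (hR : Good R) {Z : Set X} (hZ : IsClopen Z)
    (hne : Z.Nonempty) :
    ∃ z ∈ Z, ∀ x ∈ Z, ∃ y ∈ Z, (z = y ∨ R z y) ∧ (y = x ∨ R y x) := by
  obtain ⟨z, hz⟩ := hX _ (good_glue (ind_lc hZ) hR)
  obtain ⟨c, hc⟩ := hne
  have key : ∀ x ∈ Z, ∀ y, (z = y ∨ glue (ind Z) R z y) → (y = x ∨ glue (ind Z) R y x) →
      z ∈ Z ∧ y ∈ Z := by
    intro x hx y hy1 hy2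
    have h1 := glue_le hy1
    have h2 := glue_le hy2
    rw [ind_pos hx] at h2
    exact ⟨mem_of_ind (h2.trans h1), mem_of_ind h2⟩
  have hzZ : z ∈ Z := by
    obtain ⟨y, hy1, hy2⟩ := hz c
    exact (key c hc y hy1 hy2).1
  have key2 : ∀ a ∈ Z, ∀ b ∈ Z, (a = b ∨ glue (ind Z) R a b) → a = b ∨ R a b := by
    intro a ha b hb h
    rcases h with h | ⟨_, h⟩ | h
    · exact Or.inl h
    · exact Or.inr h
    · rw [ind_pos ha, ind_pos hb] at h
      omega
  refine ⟨z, hzZ, fun x hx => ?_⟩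
  obtain ⟨y, hy1, hy2⟩ := hz x
  have hy := (key x hx y hy1 hy2).2
  exact ⟨y, hy, key2 _ hzZ _ hy hy1, key2 _ hy _ hx hy2⟩

theorem fin_range (hB : Bd X) {T : Type*} {g : X → T} (hg : IsLocallyConstant g) :
    (range g).Finite := by
  by_contra h
  have hinf : (range g).Infinite := h
  let e := hinf.natEmbedding
  have hinj : Function.Injective (fun n => (e n : T)) :=
    Subtype.val_injective.comp e.injective
  let F : T → ℕ := Function.invFun (fun n => (e n : T))
  have hF : ∀ n, F (e n) = n := fun n => Function.leftInverse_invFun hinj n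
  obtain ⟨N, hN⟩ := hB (F ∘ g) (hg.comp F)
  obtain ⟨x, hx⟩ := (e (N + 1)).2
  have h1 := hN x
  rw [Function.comp_apply, hx, hF] at h1
  omega

/-! ## Sequences of open sets -/

/-- Cluster points of a sequence of sets. -/
def Clu (G : ℕ → Set X) (p : X) : Prop :=
  ∀ U ∈ 𝓝 p, ∃ᶠ n in atTop, (G n ∩ U).Nonempty

/-- Limits of a sequence of sets. -/
def Cnv (G : ℕ → Set X) (p : X) : Prop :=
  ∀ U ∈ 𝓝 p, ∀ᶠ n in atTop, (G n ∩ U).Nonempty

/-- `O` is relatively feebly compact. -/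
def Feeb (O : Set X) : Prop :=
  ∀ G : ℕ → Set X, (∀ n, IsOpen (G n)) → (∀ n, (G n).Nonempty) → (∀ n, G n ⊆ O) → ∃ p, Clu G p

theorem Feeb.mono {O O' : Set X} (h : Feeb O) (hO : O' ⊆ O) : Feeb O' :=
  fun G h1 h2 h3 => h G h1 h2 fun n => (h3 n).trans hO

theorem Clu.mono {G G' : ℕ → Set X} {p : X} (h : Clu G p) (hG : ∀ n, G n ⊆ G' n) : Clu G' p :=
  fun U hU => (h U hU).mono fun n hn => hn.mono (inter_subset_inter_left _ (hG n))

theorem Clu.of_sub {G : ℕ → Set X} {p : X} {φ : ℕ → ℕ} (hφ : StrictMono φ)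
    (h : Clu (G ∘ φ) p) : Clu G p :=
  fun U hU => hφ.tendsto_atTop.frequently (h U hU)

theorem Cnv.sub {G : ℕ → Set X} {p : X} {φ : ℕ → ℕ} (hφ : StrictMono φ)
    (h : Cnv G p) : Cnv (G ∘ φ) p :=
  fun U hU => hφ.tendsto_atTop.eventually (h U hU)

theorem Clu.mem_closure {G : ℕ → Set X} {p : X} {K : Set X} (h : Clu G p)
    (hK : ∀ n, G n ⊆ K) : p ∈ closure K := by
  rw [mem_closure_iff_nhds]
  intro U hU
  obtain ⟨n, x, hx1, hx2⟩ := (h U hU).exists
  exact ⟨x, hx2, hK n hx1⟩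

theorem Cnv.clu {G : ℕ → Set X} {p : X} (h : Cnv G p) : Clu G p :=
  fun U hU => (h U hU).frequently

/-- Monotone sequences of sets have at most one cluster point. -/
theorem clu_unique {R : X → X → Prop} (hR : Good R) {G : ℕ → Set X}
    (hG : ∀ i j, i < j → ∀ x ∈ G i, ∀ y ∈ G j, R x y) {p q : X} (hp : Clu G p) (hq : Clu G q) :
    p = q := by
  by_contra hne
  -- it suffices to treat one orientation
  have key : ∀ p q : X, Clu G p → Clu G q → R p q → False := by
    intro p q hp hq h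
    obtain ⟨U, V, hU, hV, hpU, hqV, hUV⟩ := hR.loc p q h
    obtain ⟨n, y, hy1, hy2⟩ := (hq V (hV.mem_nhds hqV)).exists
    obtain ⟨m, hm, x, hx1, hx2⟩ := frequently_atTop.1 (hp U (hU.mem_nhds hpU)) (n + 1)
    exact hR.asymm _ _ (hUV x hx2 y hy2) (hG n m (by omega) y hy1 x hx1)
  rcases hR.tot p q hne with h | h
  · exact key p q hp hq h
  · exact key q p hq hp h

theorem cnv_of_mono {R : X → X → Prop} (hR : Good R) {O : Set X} (hO : Feeb O) {G : ℕ → Set X}
    (h1 : ∀ n, IsOpen (G n)) (h2 : ∀ n, (G n).Nonempty) (h3 : ∀ n, G n ⊆ O)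
    (hG : ∀ i j, i < j → ∀ x ∈ G i, ∀ y ∈ G j, R x y) : ∃ q, Cnv G q := by
  obtain ⟨q, hq⟩ := hO G h1 h2 h3
  refine ⟨q, ?_⟩
  intro U hU
  by_contra hno
  rw [not_eventually] at hno
  obtain ⟨φ, hφ, hφ'⟩ := extraction_of_frequently_atTop hno
  obtain ⟨q', hq'⟩ := hO (G ∘ φ) (fun n => h1 _) (fun n => h2 _) (fun n => h3 _)
  have h4 : q' = q := clu_unique hR hG (hq'.of_sub hφ) hq
  subst h4
  obtain ⟨n, hn⟩ := (hq' U hU).exists
  exact hφ' n hn

/-- Every sequence of open sets in a relatively feebly compact set can be shrunk along a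
subsequence to a convergent one. -/
theorem exists_cnv {R : X → X → Prop} (hR : Good R) {O : Set X} (hO : Feeb O) {G : ℕ → Set X}
    (h1 : ∀ n, IsOpen (G n)) (h2 : ∀ n, (G n).Nonempty) (h3 : ∀ n, G n ⊆ O) :
    ∃ φ : ℕ → ℕ, StrictMono φ ∧ ∃ G' : ℕ → Set X, (∀ n, IsOpen (G' n)) ∧
      (∀ n, (G' n).Nonempty) ∧ (∀ n, G' n ⊆ G (φ n)) ∧ ∃ q, Cnv G' q := by
  obtain ⟨p, hp⟩ := hO G h1 h2 h3
  by_cases hiso : IsOpen {p}
  · obtain ⟨φ, hφ, hφ'⟩ := extraction_of_frequently_atTop (hp {p} (hiso.mem_nhds rfl))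
    refine ⟨φ, hφ, fun _ => {p}, fun _ => hiso, fun _ => singleton_nonempty p, ?_, p, ?_⟩
    · intro n
      obtain ⟨x, hx1, hx2⟩ := hφ' n
      rw [mem_singleton_iff] at hx2
      subst hx2
      exact singleton_subset_iff.2 hx1
    · intro U hU
      exact Eventually.of_forall fun n => ⟨p, rfl, mem_of_mem_nhds hU⟩
  · let P : ℕ × Set X × Set X → Prop := fun t => IsOpen t.2.1 ∧ t.2.1.Nonempty ∧
      t.2.1 ⊆ G t.1 ∧ IsOpen t.2.2 ∧ p ∈ t.2.2 ∧
      ((∀ x ∈ t.2.1, ∀ y ∈ t.2.2, R x y) ∨ (∀ x ∈ t.2.1, ∀ y ∈ t.2.2, R y x))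
    let r : ℕ × Set X × Set X → ℕ × Set X × Set X → Prop := fun t u => t.1 < u.1 ∧ u.2.1 ⊆ t.2.2
    obtain ⟨f, hf1, hf2⟩ := exists_seq_of_forall_finset_exists P r (by
      intro s hs
      have hV : IsOpen (⋂ t ∈ s, t.2.2) := isOpen_biInter_finset fun t ht => (hs t ht).2.2.2.1
      have hpV : p ∈ ⋂ t ∈ s, t.2.2 := by
        simp only [mem_iInter]
        intro t ht
        exact (hs t ht).2.2.2.2.1
      obtain ⟨m, hm, hm'⟩ := frequently_atTop.1 (hp _ (hV.mem_nhds hpV)) (s.sup Prod.fst + 1)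
      have hm0 : IsOpen (G m ∩ ⋂ t ∈ s, t.2.2) := (h1 m).inter hV
      have hx : ∃ x ∈ G m ∩ ⋂ t ∈ s, t.2.2, x ≠ p := by
        by_contra hno
        push Not at hno
        apply hiso
        have h4 : G m ∩ ⋂ t ∈ s, t.2.2 = {p} := by
          apply Subset.antisymm
          · intro x hx
            exact hno x hx
          · obtain ⟨x, hx⟩ := hm'
            rw [singleton_subset_iff]
            exact (hno x hx) ▸ hx
        rw [← h4]
        exact hm0
      obtain ⟨x, hx, hxp⟩ := hx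
      have hAB : ∃ A B : Set X, IsOpen A ∧ IsOpen B ∧ x ∈ A ∧ p ∈ B ∧
          ((∀ x ∈ A, ∀ y ∈ B, R x y) ∨ (∀ x ∈ A, ∀ y ∈ B, R y x)) := by
        rcases hR.tot x p hxp with h | h
        · obtain ⟨A, B, hA, hB, hxA, hpB, hAB⟩ := hR.loc x p h
          exact ⟨A, B, hA, hB, hxA, hpB, Or.inl hAB⟩
        · obtain ⟨B, A, hB, hA, hpB, hxA, hAB⟩ := hR.loc p x h
          exact ⟨A, B, hA, hB, hxA, hpB, Or.inr fun x hx y hy => hAB y hy x hx⟩
      obtain ⟨A, B, hA, hB, hxA, hpB, hAB⟩ := hAB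
      refine ⟨(m, A ∩ (G m ∩ ⋂ t ∈ s, t.2.2), B), ⟨hA.inter hm0, ⟨x, hxA, hx⟩,
        fun y hy => hy.2.1, hB, hpB, ?_⟩, ?_⟩
      · rcases hAB with h | h
        · left
          intro x hx y hy
          exact h x hx.1 y hy
        · right
          intro x hx y hy
          exact h x hx.1 y hy
      · intro t ht
        refine ⟨?_, ?_⟩
        · have h5 : t.1 ≤ s.sup Prod.fst := Finset.le_sup (f := Prod.fst) ht
          show t.1 < m
          omega
        · intro y hy
          have h6 := hy.2.2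
          simp only [mem_iInter] at h6
          exact h6 t ht)
    have hmono : StrictMono (fun n => (f n).1) := by
      intro i j hij
      exact (hf2 i j hij).1
    by_cases hfr : ∃ᶠ n in atTop, ∀ x ∈ (f n).2.1, ∀ y ∈ (f n).2.2, R x y
    · obtain ⟨ψ, hψ, hψ'⟩ := extraction_of_frequently_atTop hfr
      refine ⟨fun n => (f (ψ n)).1, hmono.comp hψ, fun n => (f (ψ n)).2.1,
        fun n => (hf1 _).1, fun n => (hf1 _).2.1, fun n => (hf1 _).2.2.1, ?_⟩
      refine cnv_of_mono hR hO (fun n => (hf1 _).1) (fun n => (hf1 _).2.1)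
        (fun n => (hf1 _).2.2.1.trans (h3 _)) ?_
      intro i j hij x hx y hy
      exact hψ' i x hx y ((hf2 _ _ (hψ hij)).2 hy)
    · rw [not_frequently] at hfr
      have hfr' : ∀ᶠ n in atTop, ∀ x ∈ (f n).2.1, ∀ y ∈ (f n).2.2, R y x := by
        filter_upwards [hfr] with n hn
        exact (hf1 n).2.2.2.2.2.resolve_left hn
      obtain ⟨ψ, hψ, hψ'⟩ := extraction_of_eventually_atTop hfr'
      refine ⟨fun n => (f (ψ n)).1, hmono.comp hψ, fun n => (f (ψ n)).2.1,
        fun n => (hf1 _).1, fun n => (hf1 _).2.1, fun n => (hf1 _).2.2.1, ?_⟩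
      refine cnv_of_mono hR.op hO (fun n => (hf1 _).1) (fun n => (hf1 _).2.1)
        (fun n => (hf1 _).2.2.1.trans (h3 _)) ?_
      intro i j hij x hx y hy
      exact hψ' i x hx y ((hf2 _ _ (hψ hij)).2 hy)

/-- The tube lemma. -/
theorem tube {R : X → X → Prop} (hR : Good R) {O O' : Set X} (hOo : IsOpen O)
    (hO'o : IsOpen O') (hO : Feeb O) (hO' : Feeb O') (hdis : Disjoint (closure O) (closure O'))
    {x : X} (hx : x ∈ O) {A : Set X} (hAO : A ⊆ O') (hA : ∀ a ∈ A, R x a) :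
    ∃ U ∈ 𝓝 x, ∀ x' ∈ U, ∀ a ∈ A, R x' a := by
  by_contra hno
  push Not at hno
  let P : Set X × Set X × Set X → Prop := fun t => IsOpen t.1 ∧ t.1.Nonempty ∧ t.1 ⊆ O ∧
    IsOpen t.2.1 ∧ t.2.1.Nonempty ∧ t.2.1 ⊆ O' ∧ t.2.2 ∈ 𝓝 x ∧
    (∀ w ∈ t.2.1, ∀ y ∈ t.1, R w y) ∧ (∀ v ∈ t.2.2, ∀ w ∈ t.2.1, R v w)
  let r : Set X × Set X × Set X → Set X × Set X × Set X → Prop := fun t u => u.1 ⊆ t.2.2
  obtain ⟨f, hf1, hf2⟩ := exists_seq_of_forall_finset_exists P r (by
    intro s hs
    have hV : (⋂ t ∈ s, t.2.2) ∈ 𝓝 x := (Filter.biInter_finset_mem s).2 fun t ht =>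
      (hs t ht).2.2.2.2.2.2.1
    obtain ⟨V, hVs, hVo, hxV⟩ := mem_nhds_iff.1 hV
    obtain ⟨x', hx', a, ha, hax⟩ := hno (V ∩ O) ((hVo.inter hOo).mem_nhds ⟨hxV, hx⟩)
    have hne : x' ≠ a := fun h => (Set.disjoint_left.1 hdis) (subset_closure hx'.2)
      (subset_closure (hAO (h ▸ ha)))
    have h1 : R a x' := hR.of_not hne hax
    obtain ⟨W, Y, hW, hY, haW, hxY, hWY⟩ := hR.loc a x' h1
    obtain ⟨V', W', hV', hW', hxV', haW', hVW'⟩ := hR.loc x a (hA a ha)
    refine ⟨(Y ∩ (V ∩ O), W ∩ W' ∩ O', V'), ⟨hY.inter (hVo.inter hOo), ⟨x', hxY, hx'⟩,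
      fun y hy => hy.2.2, (hW.inter hW').inter hO'o, ⟨a, ⟨haW, haW'⟩, hAO ha⟩,
      fun y hy => hy.2, hV'.mem_nhds hxV', ?_, ?_⟩, ?_⟩
    · intro w hw y hy
      exact hWY w hw.1.1 y hy.1
    · intro v hv w hw
      exact hVW' v hv w hw.1.2
    · intro t ht y hy
      have h2 := hVs hy.2.1
      simp only [mem_iInter] at h2
      exact h2 t ht)
  obtain ⟨φ, hφ, G, hG1, hG2, hG3, p, hp⟩ := exists_cnv hR hO (G := fun n => (f n).1)
    (fun n => (hf1 n).1) (fun n => (hf1 n).2.1) (fun n => (hf1 n).2.2.1)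
  obtain ⟨ψ, hψ, H, hH1, hH2, hH3, q, hq⟩ := exists_cnv hR hO' (G := fun n => (f (φ n)).2.1)
    (fun n => (hf1 _).2.2.2.1) (fun n => (hf1 _).2.2.2.2.1) (fun n => (hf1 _).2.2.2.2.2.1)
  have hp' : Cnv (G ∘ ψ) p := hp.sub hψ
  have hpO : p ∈ closure O := hp.clu.mem_closure fun n => (hG3 n).trans (hf1 _).2.2.1
  have hqO : q ∈ closure O' := hq.clu.mem_closure fun n => (hH3 n).trans (hf1 _).2.2.2.2.2.1
  have hpq : p ≠ q := fun h => (Set.disjoint_left.1 hdis) hpO (h ▸ hqO)
  rcases hR.tot p q hpq with h | h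
  · obtain ⟨U, V, hU, hV, hpU, hqV, hUV⟩ := hR.loc p q h
    obtain ⟨n, ⟨y, hy1, hy2⟩, ⟨w, hw1, hw2⟩⟩ :=
      ((hp' U (hU.mem_nhds hpU)).and (hq V (hV.mem_nhds hqV))).exists
    exact hR.asymm _ _ (hUV y hy2 w hw2)
      ((hf1 (φ (ψ n))).2.2.2.2.2.2.2.1 w (hH3 n hw1) y (hG3 _ hy1))
  · obtain ⟨V, U, hV, hU, hqV, hpU, hUV⟩ := hR.loc q p h
    obtain ⟨n, w, hw1, hw2⟩ := (hq V (hV.mem_nhds hqV)).exists
    obtain ⟨m, ⟨y, hy1, hy2⟩, hm⟩ :=
      ((hp' U (hU.mem_nhds hpU)).and (eventually_gt_atTop n)).exists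
    have h1 : R w y := hUV w hw2 y hy2
    have h2 : y ∈ (f (φ (ψ n))).2.2 :=
      hf2 _ _ (hφ (hψ hm)) (hG3 _ hy1)
    exact hR.asymm _ _ h1 ((hf1 (φ (ψ n))).2.2.2.2.2.2.2.2 y h2 w (hH3 n hw1))

/-! ## Sequences of points -/

/-- Cluster points of a sequence of points. -/
def CluP {Y : Type*} [TopologicalSpace Y] (z : ℕ → Y) (p : Y) : Prop :=
  ∀ U ∈ 𝓝 p, ∃ᶠ n in atTop, z n ∈ U

theorem CluP.mem_closed {Y : Type*} [TopologicalSpace Y] {z : ℕ → Y} {p : Y} (h : CluP z p)
    {K : Set Y} (hK : IsClosed K) (hz : ∀ᶠ n in atTop, z n ∈ K) : p ∈ K := by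
  by_contra hp
  obtain ⟨n, hn1, hn2⟩ := ((h Kᶜ (hK.isOpen_compl.mem_nhds hp)).and_eventually hz).exists
  exact hn1 hn2

theorem seq_clu_aux [T3Space X] {R : X → X → Prop} (hR : Good R) {O : Set X} (hOo : IsOpen O)
    (hO : Feeb O) (z : ℕ → X) (hz : ∀ n, z n ∈ O)
    (hno : ∀ p, ∃ K, IsClosed K ∧ K ∈ 𝓝 p ∧ ∀ᶠ n in atTop, z n ∉ K)
    (hS : ∀ᶠ m in (hyperfilter ℕ : Filter ℕ), ∀ᶠ n in (hyperfilter ℕ : Filter ℕ),
      R (z m) (z n)) : False := by
  have hle : (hyperfilter ℕ : Filter ℕ) ≤ atTop := by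
    rw [← Nat.cofinite_eq_atTop]
    exact hyperfilter_le_cofinite
  have hkey : ∀ m, (∀ᶠ n in (hyperfilter ℕ : Filter ℕ), R (z m) (z n)) →
      ∃ A B : Set X, IsOpen A ∧ z m ∈ A ∧ A ⊆ O ∧ IsOpen B ∧
        (∀ᶠ n in (hyperfilter ℕ : Filter ℕ), z n ∈ B) ∧ ∀ x ∈ A, ∀ y ∈ B, R x y := by
    intro m hm
    obtain ⟨K, hK, hKm, hKz⟩ := hno (z m)
    obtain ⟨t, ht, htc, htK⟩ := exists_mem_nhds_isClosed_subset (interior_mem_nhds.2 hKm)
    have hB : IsOpen (O ∩ {y | R (z m) y} ∩ Kᶜ) :=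
      (hOo.inter (hR.open_right _)).inter hK.isOpen_compl
    have hV : IsOpen (interior t ∩ O) := isOpen_interior.inter hOo
    have hzV : z m ∈ interior t ∩ O := ⟨mem_interior_iff_mem_nhds.2 ht, hz m⟩
    have hdis : Disjoint (closure (interior t ∩ O)) (closure (O ∩ {y | R (z m) y} ∩ Kᶜ)) := by
      rw [Set.disjoint_left]
      intro y hy1 hy2
      have h1 : y ∈ interior K := htK (closure_minimal
        (inter_subset_left.trans interior_subset) htc hy1)
      have h2 : y ∈ (interior K)ᶜ := closure_minimal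
        (fun w hw hw' => hw.2 (interior_subset hw')) isOpen_interior.isClosed_compl hy2
      exact h2 h1
    obtain ⟨U, hU, hU'⟩ := tube hR hV hB (hO.mono inter_subset_right)
      (hO.mono (inter_subset_left.trans inter_subset_left)) hdis hzV Subset.rfl
      (fun a ha => ha.1.2)
    refine ⟨interior U ∩ O, _, isOpen_interior.inter hOo,
      ⟨mem_interior_iff_mem_nhds.2 hU, hz m⟩, inter_subset_right, hB, ?_,
      fun x hx y hy => hU' x (interior_subset hx.1) y hy⟩
    filter_upwards [hm, hle hKz] with n h1 h2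
    exact ⟨⟨hz n, h1⟩, h2⟩
  let P : ℕ × Set X × Set X → Prop := fun t => IsOpen t.2.1 ∧ z t.1 ∈ t.2.1 ∧ t.2.1 ⊆ O ∧
    IsOpen t.2.2 ∧ (∀ᶠ n in (hyperfilter ℕ : Filter ℕ), z n ∈ t.2.2) ∧
    ∀ x ∈ t.2.1, ∀ y ∈ t.2.2, R x y
  let r : ℕ × Set X × Set X → ℕ × Set X × Set X → Prop := fun t u => t.1 < u.1 ∧ u.2.1 ⊆ t.2.2
  obtain ⟨f, hf1, hf2⟩ := exists_seq_of_forall_finset_exists P r (by
    intro s hs
    have hV : IsOpen (⋂ t ∈ s, t.2.2) := isOpen_biInter_finset fun t ht => (hs t ht).2.2.2.1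
    have hV' : ∀ᶠ n in (hyperfilter ℕ : Filter ℕ), z n ∈ ⋂ t ∈ s, t.2.2 := by
      have h1 : ∀ᶠ n in (hyperfilter ℕ : Filter ℕ), ∀ t ∈ s, z n ∈ t.2.2 :=
        (eventually_all_finset s).2 fun t ht => (hs t ht).2.2.2.2.1
      filter_upwards [h1] with n hn
      simp only [mem_iInter]
      exact hn
    obtain ⟨n, hn1, hn2, hn3⟩ := (hV'.and (hS.and (hle (eventually_gt_atTop
      (s.sup Prod.fst))))).exists
    obtain ⟨A, B, hA, hzA, hAO, hB, hzB, hAB⟩ := hkey n hn2
    refine ⟨(n, A ∩ ⋂ t ∈ s, t.2.2, B), ⟨hA.inter hV, ⟨hzA, hn1⟩,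
      inter_subset_left.trans hAO, hB, hzB, fun x hx y hy => hAB x hx.1 y hy⟩, ?_⟩
    intro t ht
    refine ⟨lt_of_le_of_lt (Finset.le_sup (f := Prod.fst) ht) hn3, ?_⟩
    intro y hy
    have h6 := hy.2
    simp only [mem_iInter] at h6
    exact h6 t ht)
  have hmono : StrictMono (fun n => (f n).1) := fun i j hij => (hf2 i j hij).1
  have hGm : ∀ i j, i < j → ∀ x ∈ (f i).2.1, ∀ y ∈ (f j).2.1, R x y := by
    intro i j hij x hx y hy
    exact (hf1 i).2.2.2.2.2 x hx y ((hf2 i j hij).2 hy)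
  obtain ⟨q, hq⟩ := cnv_of_mono hR hO (G := fun n => (f n).2.1) (fun n => (hf1 n).1)
    (fun n => ⟨_, (hf1 n).2.1⟩) (fun n => (hf1 n).2.2.1) hGm
  obtain ⟨K, hK, hKq, hKz⟩ := hno q
  obtain ⟨N, hN⟩ := eventually_atTop.1 (hmono.tendsto_atTop.eventually hKz)
  have hsh : StrictMono (fun k => k + N) := fun i j hij => by
    show i + N < j + N
    omega
  obtain ⟨q', hq'⟩ := hO (fun k => (f (k + N)).2.1 ∩ Kᶜ)
    (fun k => (hf1 _).1.inter hK.isOpen_compl)
    (fun k => ⟨z (f (k + N)).1, (hf1 _).2.1, hN _ (by omega)⟩)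
    (fun k => inter_subset_left.trans (hf1 _).2.2.1)
  have h1 : Clu (fun n => (f n).2.1) q' := by
    have h2 : Clu ((fun n => (f n).2.1) ∘ (fun k => k + N)) q' :=
      hq'.mono fun n => inter_subset_left
    exact h2.of_sub hsh
  have h3 : q' = q := clu_unique hR hGm h1 hq.clu
  subst h3
  obtain ⟨n, x, hx1, hx2⟩ := (hq' K hKq).exists
  exact hx1.2 hx2

theorem seq_clu [T3Space X] {R : X → X → Prop} (hR : Good R) {O : Set X} (hOo : IsOpen O)
    (hO : Feeb O) (z : ℕ → X) (hz : ∀ n, z n ∈ O) : ∃ p, CluP z p := by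
  by_contra hno
  have hno' : ∀ p, ∃ K, IsClosed K ∧ K ∈ 𝓝 p ∧ ∀ᶠ n in atTop, z n ∉ K := by
    intro p
    by_contra h
    apply hno
    refine ⟨p, fun U hU => ?_⟩
    obtain ⟨K, hK, hKc, hKU⟩ := exists_mem_nhds_isClosed_subset hU
    by_contra h'
    rw [not_frequently] at h'
    exact h ⟨K, hKc, hK, h'.mono fun n hn hn' => hn (hKU hn')⟩
  have hle : (hyperfilter ℕ : Filter ℕ) ≤ atTop := by
    rw [← Nat.cofinite_eq_atTop]
    exact hyperfilter_le_cofinite
  by_cases hS : ∀ᶠ m in (hyperfilter ℕ : Filter ℕ), ∀ᶠ n in (hyperfilter ℕ : Filter ℕ),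
      R (z m) (z n)
  · exact seq_clu_aux hR hOo hO z hz hno' hS
  · refine seq_clu_aux hR.op hOo hO z hz hno' ?_
    have h1 : ∀ᶠ m in (hyperfilter ℕ : Filter ℕ), ¬ ∀ᶠ n in (hyperfilter ℕ : Filter ℕ),
      R (z m) (z n) := Ultrafilter.eventually_not.2 hS
    filter_upwards [h1] with m hm
    have h2 : ∀ᶠ n in (hyperfilter ℕ : Filter ℕ), ¬ R (z m) (z n) :=
      Ultrafilter.eventually_not.2 hm
    obtain ⟨K, _, hK, hKz⟩ := hno' (z m)
    filter_upwards [h2, hle hKz] with n h3 h4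
    exact hR.of_not (fun h => h4 (h ▸ mem_of_mem_nhds hK)) h3

/-! ## Quasi-components -/

/-- The quasi-component of a point. -/
def qc (c : X) : Set X := {y | ∀ Z : Set X, IsClopen Z → c ∈ Z → y ∈ Z}

theorem self_mem_qc (c : X) : c ∈ qc c := fun _ _ h => h

theorem isClosed_qc (c : X) : IsClosed (qc c) := by
  rw [← isOpen_compl_iff, isOpen_iff_mem_nhds]
  intro x hx
  have h1 : ∃ Z : Set X, IsClopen Z ∧ c ∈ Z ∧ x ∉ Z := by
    by_contra h
    push Not at h
    exact hx h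
  obtain ⟨Z, hZ, hc, hxZ⟩ := h1
  filter_upwards [hZ.compl.isOpen.mem_nhds hxZ] with y hy h2
  exact hy (h2 Z hZ hc)

theorem exists_clopen_of_not_mem {c x : X} (hx : x ∉ qc c) :
    ∃ Z : Set X, IsClopen Z ∧ c ∈ Z ∧ x ∉ Z := by
  by_contra h
  push Not at h
  exact hx h

theorem qc_sep {c a b : X} (ha : a ∈ qc c) (hb : b ∈ qc c) {E : Set X} (hE : IsClopen E)
    (haE : a ∈ E) : b ∈ E := by
  by_cases hc : c ∈ E
  · exact hb E hE hc
  · exact absurd haE (ha Eᶜ hE.compl hc)

theorem cut {R : X → X → Prop} (hR : Good R) {Z : Set X} (hZ : IsClopen Z) {x : X}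
    (hx : x ∉ Z) : IsClopen (Z ∩ {w | R x w}) := by
  constructor
  · rw [← isOpen_compl_iff]
    have h1 : (Z ∩ {w | R x w})ᶜ = Zᶜ ∪ {w | R w x} := by
      ext w
      constructor
      · intro hw
        by_cases hwZ : w ∈ Z
        · right
          exact hR.of_not (fun h => hx (h ▸ hwZ)) fun h => hw ⟨hwZ, h⟩
        · exact Or.inl hwZ
      · rintro (hw | hw) ⟨h1, h2⟩
        · exact hw h1
        · exact hR.asymm _ _ hw h2
    rw [h1]
    exact hZ.compl.isOpen.union (hR.open_left x)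
  · exact hZ.isOpen.inter (hR.open_right x)

theorem uni {R : X → X → Prop} (hR : Good R) {c x a b : X} (hx : x ∉ qc c) (ha : a ∈ qc c)
    (hb : b ∈ qc c) (h : R x a) : R x b := by
  obtain ⟨Z, hZ, hc, hxZ⟩ := exists_clopen_of_not_mem hx
  exact (qc_sep ha hb (cut hR hZ hxZ) ⟨ha Z hZ hc, h⟩).2

theorem no_cycle {R : X → X → Prop} (hR : Good R) {q a b c : X} (ha : a ∈ qc q)
    (hb : b ∈ qc q) (h1 : R a b) (h2 : R b c) (h3 : R c a) : False := by
  have hclop : IsClopen ({x | R x b} ∩ {x | R c x}) := by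
    constructor
    · rw [← isOpen_compl_iff]
      have h4 : ({x | R x b} ∩ {x | R c x})ᶜ = ({x | R b x} ∩ {x | R c x}) ∪
          ({x | R b x} ∩ {x | R x c}) ∪ {x | R x c} ∪ {x | R b x} := by
        ext x
        constructor
        · intro hx
          by_cases hxb : x = b
          · left; right
            show R x c
            rw [hxb]; exact h2
          by_cases h5 : R x b
          · have h6 : ¬ R c x := fun h => hx ⟨h5, h⟩
            left; right
            by_cases hxc : c = x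
            · exfalso
              rw [← hxc] at h5
              exact hR.asymm _ _ h2 h5
            · exact hR.of_not hxc h6
          · right
            exact hR.of_not hxb h5
        · rintro (((h5 | h5) | h5) | h5) ⟨h6, h7⟩
          · exact hR.asymm _ _ h5.1 h6
          · exact hR.asymm _ _ h5.1 h6
          · exact hR.asymm _ _ h5 h7
          · exact hR.asymm _ _ h5 h6
      rw [h4]
      exact ((((hR.open_right b).inter (hR.open_right c)).union
        ((hR.open_right b).inter (hR.open_left c))).union (hR.open_left c)).union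
        (hR.open_right b)
    · exact (hR.open_left b).inter (hR.open_right c)
  have h4 := qc_sep ha hb hclop ⟨h1, h3⟩
  exact hR.asymm _ _ h4.1 h4.1

theorem trans_qc {R : X → X → Prop} (hR : Good R) {q a b c : X} (ha : a ∈ qc q)
    (hb : b ∈ qc q) (h1 : a = b ∨ R a b) (h2 : b = c ∨ R b c) : a = c ∨ R a c := by
  rcases h1 with h1 | h1
  · rw [h1]; exact h2
  rcases h2 with h2 | h2
  · rw [← h2]; exact Or.inr h1
  by_contra h
  rw [not_or] at h
  exact no_cycle hR ha hb h1 h2 (hR.of_not h.1 h.2)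

theorem source (hX : Roy X) {R : X → X → Prop} (hR : Good R) (c : X) :
    ∃ m ∈ qc c, ∀ x ∈ qc c, m = x ∨ R m x := by
  by_contra hno
  push Not at hno
  set C := qc c with hCdef
  have hCc : IsClosed C := isClosed_qc c
  have hcC : c ∈ C := self_mem_qc c
  have hbeat : ∀ m ∈ C, ∃ x ∈ C, R x m := by
    intro m hm
    obtain ⟨x, hx, hne, hx'⟩ := hno m hm
    exact ⟨x, hx, hR.of_not hne hx'⟩
  let N : Set X := {x | x ∉ C ∧ R x c}
  have hN : IsClopen N := by
    constructor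
    · rw [← isOpen_compl_iff, isOpen_iff_mem_nhds]
      intro x hx
      by_cases hxC : x ∈ C
      · obtain ⟨b, hb, hbR⟩ := hbeat x hxC
        filter_upwards [(hR.open_right b).mem_nhds hbR] with y hy
        rintro ⟨h5, h6⟩
        exact hR.asymm _ _ hy (uni hR h5 hcC hb h6)
      · have hne : x ≠ c := fun h => hxC (h ▸ hcC)
        have h1 : R c x := hR.of_not hne fun h => hx ⟨hxC, h⟩
        filter_upwards [(hR.open_right c).mem_nhds h1] with y hy
        rintro ⟨_, h6⟩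
        exact hR.asymm _ _ hy h6
    · exact hCc.isOpen_compl.inter (hR.open_left c)
  have hG := good_glue (ind_lc hN.compl) hR
  obtain ⟨z, hz⟩ := hX _ hG
  have hCN : ∀ x ∈ C, x ∈ Nᶜ := fun x hx h => h.1 hx
  have hout : ∀ a ∈ C, ∀ x ∉ C, glue (ind Nᶜ) R a x := by
    intro a ha x hx
    by_cases hxN : x ∈ N
    · right
      rw [ind_pos (hCN a ha), ind_neg (Z := Nᶜ) (fun h => h hxN)]
      exact Nat.one_pos
    · left
      refine ⟨by rw [ind_pos (hCN a ha), ind_pos (Z := Nᶜ) hxN], ?_⟩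
      have hne : x ≠ a := fun h => hx (h ▸ ha)
      refine hR.of_not hne fun h => ?_
      exact hxN ⟨hx, uni hR hx ha hcC h⟩
  have hback : ∀ a ∈ C, ∀ x, (x = a ∨ glue (ind Nᶜ) R x a) → x ∈ C := by
    intro a ha x hx
    by_contra hxC
    rcases hx with h | h
    · exact hxC (h ▸ ha)
    · exact hG.asymm _ _ h (hout a ha x hxC)
  have hin : ∀ a ∈ C, ∀ x ∈ C, (x = a ∨ glue (ind Nᶜ) R x a) → x = a ∨ R x a := by
    intro a ha x hx h
    rcases h with h | ⟨_, h⟩ | h
    · exact Or.inl h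
    · exact Or.inr h
    · rw [ind_pos (hCN a ha), ind_pos (hCN x hx)] at h
      omega
  have hzC : z ∈ C := by
    obtain ⟨y, hy1, hy2⟩ := hz c
    exact hback y (hback c hcC y hy2) z hy1
  obtain ⟨b, hb, hbR⟩ := hbeat z hzC
  obtain ⟨y, hy1, hy2⟩ := hz b
  have hyC := hback b hb y hy2
  have h1 := hin y hyC z hzC hy1
  have h2 := hin b hb y hyC hy2
  rcases trans_qc hR hzC hyC h1 h2 with h | h
  · exact hR.ne hbR h.symm
  · exact hR.asymm _ _ h hbR

theorem preconn_qc {R : X → X → Prop} (hR : Good R) {c m : X} (hm : m ∈ qc c)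
    (hmin : ∀ x ∈ qc c, m = x ∨ R m x) : IsPreconnected (qc c) := by
  have key : ∀ t t' : Set X, IsClosed t → IsClosed t' → qc c ⊆ t ∪ t' →
      (∀ x ∈ qc c, x ∈ t → x ∉ t') → ∀ a ∈ qc c, a ∈ t → ∀ b ∈ qc c, b ∈ t' → R a b →
      False := by
    intro t t' ht ht' hcov hdis a ha hat b hb hbt' hab
    have hnear : ∀ x ∈ qc c, x ≠ m → ∀ᶠ y in 𝓝 x, ¬ (y ∉ qc c ∧ R y m) := by
      intro x hx hxm
      have h1 : R m x := (hmin x hx).resolve_left hxm.symm
      filter_upwards [(hR.open_right m).mem_nhds h1] with y hy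
      rintro ⟨_, h2⟩
      exact hR.asymm _ _ hy h2
    by_cases hmt : m ∈ t
    · have hH : IsClopen ((qc c ∩ t ∩ {x | R x b}) ∪ {x | x ∉ qc c ∧ R x m}) := by
        constructor
        · rw [← isOpen_compl_iff, isOpen_iff_mem_nhds]
          intro x hx
          by_cases hxq : x ∈ qc c
          · have hxm : x ≠ m := by
              rintro rfl
              apply hx
              left
              refine ⟨⟨hxq, hmt⟩, ?_⟩
              rcases hmin b hb with h | h
              · exfalso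
                exact hdis _ hxq hmt (h ▸ hbt')
              · exact h
            by_cases hxt : x ∈ t
            · have h2 : R b x := by
                refine hR.of_not (fun h => hdis x hxq hxt (h ▸ hbt')) fun h => ?_
                exact hx (Or.inl ⟨⟨hxq, hxt⟩, h⟩)
              filter_upwards [hnear x hxq hxm, (hR.open_right b).mem_nhds h2] with y h3 h4
              rintro (h5 | h5)
              · exact hR.asymm _ _ h4 h5.2
              · exact h3 h5
            · filter_upwards [hnear x hxq hxm, ht.isOpen_compl.mem_nhds hxt] with y h3 h4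
              rintro (h5 | h5)
              · exact h4 h5.1.2
              · exact h3 h5
          · have hne : x ≠ m := fun h => hxq (h ▸ hm)
            have h2 : R m x := hR.of_not hne fun h => hx (Or.inr ⟨hxq, h⟩)
            filter_upwards [(hR.open_right m).mem_nhds h2,
              (isClosed_qc c).isOpen_compl.mem_nhds hxq] with y h3 h4
            rintro (h5 | h5)
            · exact h4 h5.1.1
            · exact hR.asymm _ _ h3 h5.2
        · rw [isOpen_iff_mem_nhds]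
          rintro x (⟨⟨hxq, hxt⟩, hxb⟩ | hx)
          · have hxt' : x ∉ t' := hdis x hxq hxt
            filter_upwards [(hR.open_left b).mem_nhds hxb, ht'.isOpen_compl.mem_nhds hxt']
              with y h3 h4
            by_cases hyq : y ∈ qc c
            · left
              exact ⟨⟨hyq, (hcov hyq).resolve_right h4⟩, h3⟩
            · right
              exact ⟨hyq, uni hR hyq hb hm h3⟩
          · filter_upwards [((isClosed_qc c).isOpen_compl.inter (hR.open_left m)).mem_nhds hx]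
              with y hy
            exact Or.inr hy
      have h1 := qc_sep ha hb hH (Or.inl ⟨⟨ha, hat⟩, hab⟩)
      rcases h1 with h1 | h1
      · exact hR.asymm _ _ h1.2 h1.2
      · exact h1.1 hb
    · have hH : IsClopen (qc c ∩ t ∩ {x | R x b}) := by
        constructor
        · rw [← isOpen_compl_iff, isOpen_iff_mem_nhds]
          intro x hx
          by_cases hxq : x ∈ qc c
          · by_cases hxt : x ∈ t
            · have h2 : R b x := by
                refine hR.of_not (fun h => hdis x hxq hxt (h ▸ hbt')) fun h => ?_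
                exact hx ⟨⟨hxq, hxt⟩, h⟩
              filter_upwards [(hR.open_right b).mem_nhds h2] with y h4 h5
              exact hR.asymm _ _ h4 h5.2
            · filter_upwards [ht.isOpen_compl.mem_nhds hxt] with y h4 h5
              exact h4 h5.1.2
          · filter_upwards [(isClosed_qc c).isOpen_compl.mem_nhds hxq] with y h4 h5
            exact h4 h5.1.1
        · rw [isOpen_iff_mem_nhds]
          rintro x ⟨⟨hxq, hxt⟩, hxb⟩
          have hxt' : x ∉ t' := hdis x hxq hxt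
          have hxm : x ≠ m := fun h => hmt (h ▸ hxt)
          filter_upwards [(hR.open_left b).mem_nhds hxb, ht'.isOpen_compl.mem_nhds hxt',
            hnear x hxq hxm] with y h3 h4 h5
          by_cases hyq : y ∈ qc c
          · exact ⟨⟨hyq, (hcov hyq).resolve_right h4⟩, h3⟩
          · exact absurd ⟨hyq, uni hR hyq hb hm h3⟩ h5
      have h1 := qc_sep ha hb hH ⟨⟨ha, hat⟩, hab⟩
      exact hR.asymm _ _ h1.2 h1.2
  rw [isPreconnected_closed_iff]
  intro t t' ht ht' hcov h1 h2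
  by_contra hno
  rw [not_nonempty_iff_eq_empty, eq_empty_iff_forall_notMem] at hno
  obtain ⟨a, ha, hat⟩ := h1
  obtain ⟨b, hb, hbt'⟩ := h2
  have hne : a ≠ b := fun h => hno a ⟨ha, hat, h ▸ hbt'⟩
  rcases hR.tot a b hne with h | h
  · exact key t t' ht ht' hcov (fun x hx h1 h2 => hno x ⟨hx, h1, h2⟩) a ha hat b hb hbt' h
  · exact key t' t ht' ht (by rw [union_comm]; exact hcov)
      (fun x hx h1 h2 => hno x ⟨hx, h2, h1⟩) b hb hbt' a ha hat h

/-! ## Ordered connected spaces -/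

section Ordered

theorem right_nbhd {Y : Type*} [LinearOrder Y] [TopologicalSpace Y] [OrderClosedTopology Y]
    [PreconnectedSpace Y] [RegularSpace Y] {c t : Y} (hct : c < t) {O : Set Y} (hO : O ∈ 𝓝 c)
    (hcc : ∀ z : ℕ → Y, (∀ n, z n ∈ O) → ∃ p, CluP z p) {V : Set Y} (hV : V ∈ 𝓝 c) :
    ∃ q, c < q ∧ Icc c q ⊆ V := by
  have hconn : ∀ p q : Y, p ≤ q → IsPreconnected (Icc p q) := by
    intro p q hpq
    have h1 : Continuous (fun y : Y => max p (min y q)) :=
      continuous_const.max (continuous_id.min continuous_const)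
    have h2 : range (fun y : Y => max p (min y q)) = Icc p q := by
      ext y
      constructor
      · rintro ⟨x, rfl⟩
        exact ⟨le_max_left _ _, max_le hpq (min_le_right _ _)⟩
      · rintro ⟨h3, h4⟩
        refine ⟨y, ?_⟩
        simp [h3, h4]
    rw [← h2]
    exact isPreconnected_range h1
  by_contra hno
  push Not at hno
  obtain ⟨t1, ht1, ht1c, ht1V⟩ := exists_mem_nhds_isClosed_subset (Filter.inter_mem hV hO)
  obtain ⟨t2, ht2, ht2c, ht2V⟩ := exists_mem_nhds_isClosed_subset (interior_mem_nhds.2 ht1)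
  have hmeet : ∀ W : Set Y, IsOpen W → c ∈ W → W ⊆ V → ∀ q, c < q →
      ∃ e, e ∈ frontier W ∧ c < e ∧ e ≤ q := by
    intro W hW hcW hWV q hq
    by_contra hemp
    push Not at hemp
    have hfr : ∀ y ∈ Icc c q, y ∉ frontier W := by
      intro y hy hyf
      rcases hy.1.eq_or_lt with h | h
      · subst h
        exact hyf.2 (hW.interior_eq.symm ▸ hcW)
      · exact absurd hy.2 (not_le.2 (hemp y hyf h))
    have hcases : ∀ y ∈ Icc c q, y ∉ W → y ∈ (closure W)ᶜ := by
      intro y hy hyW hyc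
      exact hfr y hy ⟨hyc, fun h => hyW (interior_subset h)⟩
    obtain ⟨e, he, heV⟩ := not_subset.1 (hno q hq)
    obtain ⟨y, _, hy1, hy2⟩ := hconn c q hq.le W (closure W)ᶜ hW isClosed_closure.isOpen_compl
      (by
        intro y hy
        by_cases hyV : y ∈ W
        · exact Or.inl hyV
        · exact Or.inr (hcases y hy hyV))
      ⟨c, ⟨le_rfl, hq.le⟩, hcW⟩ ⟨e, he, hcases e he fun h => heV (hWV h)⟩
    exact hy2 (subset_closure hy1)
  have h1V : interior t1 ⊆ V := fun y hy => (ht1V (interior_subset hy)).1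
  have h21 : closure (interior t2) ⊆ interior t1 :=
    (closure_minimal interior_subset ht2c).trans ht2V
  have h2V : interior t2 ⊆ V := (subset_closure.trans h21).trans h1V
  have hc1 : c ∈ interior t1 := mem_interior_iff_mem_nhds.2 ht1
  have hc2 : c ∈ interior t2 := mem_interior_iff_mem_nhds.2 ht2
  let P : Y × Y → Prop := fun u => u.1 ∈ frontier (interior t1) ∧ u.2 ∈ frontier (interior t2) ∧
    c < u.2 ∧ u.2 ≤ u.1
  let r : Y × Y → Y × Y → Prop := fun u v => v.1 ≤ u.2
  obtain ⟨f, hf1, hf2⟩ := exists_seq_of_forall_finset_exists P r (by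
    intro s hs
    have hz : ∃ z, c < z ∧ ∀ u ∈ s, z ≤ u.2 := by
      let S : Finset Y := insert t (s.image Prod.snd)
      have hS : S.Nonempty := ⟨t, Finset.mem_insert_self _ _⟩
      refine ⟨S.min' hS, ?_, ?_⟩
      · have h1 := S.min'_mem hS
        rcases Finset.mem_insert.1 h1 with h | h
        · rw [h]; exact hct
        · obtain ⟨u, hu, hu'⟩ := Finset.mem_image.1 h
          rw [← hu']
          exact (hs u hu).2.2.1
      · intro u hu
        exact S.min'_le _ (Finset.mem_insert_of_mem (Finset.mem_image_of_mem _ hu))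
    obtain ⟨z, hcz, hz⟩ := hz
    obtain ⟨a, ha, hca, haz⟩ := hmeet _ isOpen_interior hc1 h1V z hcz
    obtain ⟨b, hb, hcb, hba⟩ := hmeet _ isOpen_interior hc2 h2V a hca
    exact ⟨(a, b), ⟨ha, hb, hcb, hba⟩, fun u hu => haz.trans (hz u hu)⟩)
  have hfr1 : ∀ n, (f n).1 ∈ closure (interior t1) := fun n => (hf1 n).1.1
  have hfr2 : ∀ n, (f n).2 ∈ closure (interior t2) := fun n => (hf1 n).2.1.1
  have ht1O : closure (interior t1) ⊆ O := (closure_minimal interior_subset ht1c).trans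
    fun y hy => (ht1V hy).2
  obtain ⟨a, ha⟩ := hcc (fun n => (f n).1) (fun n => ht1O (hfr1 n))
  obtain ⟨b, hb⟩ := hcc (fun n => (f n).2)
    (fun n => ht1O (subset_closure (h21 (hfr2 n))))
  have ha2 : ∀ m, a ≤ (f m).2 := by
    intro m
    refine ha.mem_closed (K := Iic (f m).2) isClosed_Iic ?_
    filter_upwards [eventually_gt_atTop m] with n hn
    exact hf2 m n hn
  have hab : a ≤ b := hb.mem_closed (K := Ici a) isClosed_Ici (Eventually.of_forall ha2)
  have hb2 : ∀ m, b ≤ (f m).1 := by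
    intro m
    refine hb.mem_closed (K := Iic (f m).1) isClosed_Iic ?_
    filter_upwards [eventually_gt_atTop m] with n hn
    exact ((hf1 n).2.2.2.trans (hf2 m n hn)).trans (hf1 m).2.2.2
  have hba : b ≤ a := ha.mem_closed (K := Ici b) isClosed_Ici (Eventually.of_forall hb2)
  have hEq : a = b := le_antisymm hab hba
  have h3 : a ∈ frontier (interior t1) :=
    ha.mem_closed isClosed_frontier (Eventually.of_forall fun n => (hf1 n).1)
  have h4 : b ∈ closure (interior t2) :=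
    hb.mem_closed isClosed_closure (Eventually.of_forall hfr2)
  have h5 : a ∈ interior t1 := hEq ▸ h21 h4
  exact h3.2 (by rw [interior_interior]; exact h5)

theorem left_nbhd {Y : Type*} [LinearOrder Y] [TopologicalSpace Y] [OrderClosedTopology Y]
    [PreconnectedSpace Y] [RegularSpace Y] {c t : Y} (hct : t < c) {O : Set Y} (hO : O ∈ 𝓝 c)
    (hcc : ∀ z : ℕ → Y, (∀ n, z n ∈ O) → ∃ p, CluP z p) {V : Set Y} (hV : V ∈ 𝓝 c) :
    ∃ p, p < c ∧ Icc p c ⊆ V := by
  have hpre : PreconnectedSpace Yᵒᵈ := ‹PreconnectedSpace Y›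
  have hreg : RegularSpace Yᵒᵈ := ‹RegularSpace Y›
  obtain ⟨q, hq, hqV⟩ := right_nbhd (Y := Yᵒᵈ) (c := OrderDual.toDual c)
    (t := OrderDual.toDual t) hct (O := O) hO hcc (V := V) hV
  refine ⟨OrderDual.ofDual q, hq, ?_⟩
  intro y hy
  exact hqV ⟨hy.2, hy.1⟩

theorem compact_of_ordered {Y : Type*} [LinearOrder Y] [TopologicalSpace Y]
    [OrderClosedTopology Y] [PreconnectedSpace Y] [RegularSpace Y]
    (hcc : ∀ y : Y, ∃ O ∈ 𝓝 y, ∀ z : ℕ → Y, (∀ n, z n ∈ O) → ∃ p, CluP z p) (b t : Y)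
    (hb : ∀ y, b ≤ y) (ht : ∀ y, y ≤ t) : IsCompact (univ : Set Y) := by
  rw [isCompact_iff_ultrafilter_le_nhds]
  intro F _
  by_contra hno
  have hno' : ∀ c : Y, ∃ V ∈ 𝓝 c, V ∉ F := by
    intro c
    by_contra h
    push Not at h
    exact hno ⟨c, mem_univ _, fun V hV => h V hV⟩
  have hcup : ∀ A B : Set Y, A ∉ F → B ∉ F → A ∪ B ∉ F := by
    intro A B hA hB h
    rcases Ultrafilter.union_mem_iff.1 h with h | h
    · exact hA h
    · exact hB h
  have h1 : IsClopen {c : Y | Iic c ∉ F} := by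
    constructor
    · rw [← isOpen_compl_iff, isOpen_iff_mem_nhds]
      intro c hc
      have hc' : Iic c ∈ F := by
        by_contra h
        exact hc h
      obtain ⟨V, hV, hVF⟩ := hno' c
      have hbc : b < c := by
        rcases (hb c).eq_or_lt with h | h
        · exfalso
          apply hVF
          filter_upwards [hc'] with y hy
          have : y = c := le_antisymm hy (h ▸ hb y)
          rw [this]
          exact mem_of_mem_nhds hV
        · exact h
      obtain ⟨O, hO, hcO⟩ := hcc c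
      obtain ⟨p, hp, hpV⟩ := left_nbhd hbc hO hcO hV
      filter_upwards [isOpen_Ioi.mem_nhds (mem_Ioi.2 hp)] with c' hc' hcomp
      refine hcup _ _ hcomp hVF ?_
      filter_upwards [‹Iic c ∈ F›] with y hy
      rcases le_total y c' with h | h
      · exact Or.inl h
      · exact Or.inr (hpV ⟨(le_of_lt hc').trans h, hy⟩)
    · rw [isOpen_iff_mem_nhds]
      intro c hc
      obtain ⟨V, hV, hVF⟩ := hno' c
      rcases (ht c).eq_or_lt with h | h
      · filter_upwards with c'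
        intro h'
        apply hc
        filter_upwards [h'] with y hy
        exact le_trans hy (h ▸ ht c')
      · obtain ⟨O, hO, hcO⟩ := hcc c
        obtain ⟨q, hq, hqV⟩ := right_nbhd h hO hcO hV
        filter_upwards [isOpen_Iio.mem_nhds (mem_Iio.2 hq)] with c' hc' hcomp
        refine hcup _ _ hc hVF ?_
        filter_upwards [hcomp] with y hy
        rcases le_total y c with h | h
        · exact Or.inl h
        · exact Or.inr (hqV ⟨h, le_trans hy (le_of_lt hc')⟩)
  have h2 : b ∈ {c : Y | Iic c ∉ F} := by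
    intro h
    obtain ⟨V, hV, hVF⟩ := hno' b
    apply hVF
    filter_upwards [h] with y hy
    have : y = b := le_antisymm hy (hb y)
    rw [this]
    exact mem_of_mem_nhds hV
  have h3 := h1.eq_univ ⟨b, h2⟩
  have h4 : t ∈ {c : Y | Iic c ∉ F} := h3 ▸ mem_univ t
  apply h4
  filter_upwards with y
  exact ht y

end Ordered

/-- Local relative feeble compactness. -/
def LF (X : Type*) [TopologicalSpace X] : Prop :=
  ∀ x : X, ∃ O : Set X, IsOpen O ∧ x ∈ O ∧ Feeb O

open Classical in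
/-- The linear order of a quasi-component induced by a good relation. -/
@[instance_reducible] noncomputable def ord {R : X → X → Prop} (hR : Good R) (c : X) :
    LinearOrder (qc c) where
  le a b := (a : X) = b ∨ R a b
  le_refl a := Or.inl rfl
  le_trans a b c h1 h2 := trans_qc hR a.2 b.2 h1 h2
  le_antisymm a b h1 h2 := by
    apply Subtype.ext
    rcases h1 with h1 | h1
    · exact h1
    rcases h2 with h2 | h2
    · exact h2.symm
    exact absurd h2 (hR.asymm _ _ h1)
  le_total a b := by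
    by_cases h : (a : X) = b
    · exact Or.inl (Or.inl h)
    · rcases hR.tot _ _ h with h' | h'
      · exact Or.inl (Or.inr h')
      · exact Or.inr (Or.inr h')
  toDecidableLE := Classical.decRel _

theorem qc_compact [T3Space X] (hX : Roy X) (hF : LF X) {R : X → X → Prop} (hR : Good R)
    (c : X) : IsCompact (qc c) := by
  obtain ⟨m, hm, hm'⟩ := source hX hR c
  obtain ⟨s, hs, hs'⟩ := source hX hR.op c
  have hC : IsPreconnected (qc c) := preconn_qc hR hm hm'
  have hCc : IsClosed (qc c) := isClosed_qc c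
  let _ : LinearOrder (qc c) := ord hR c
  have : PreconnectedSpace (qc c) := Subtype.preconnectedSpace hC
  have hle : ∀ a b : qc c, a ≤ b ↔ ((a : X) = b ∨ R a b) := fun a b => Iff.rfl
  have : OrderClosedTopology (qc c) := by
    constructor
    rw [← isOpen_compl_iff, isOpen_iff_mem_nhds]
    rintro ⟨a, b⟩ hab
    have h1 : ¬ ((a : X) = b ∨ R a b) := hab
    rw [not_or] at h1
    have h2 : R b a := hR.of_not h1.1 h1.2
    obtain ⟨U, V, hU, hV, hbU, haV, hUV⟩ := hR.loc b a h2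
    have h3 : (Subtype.val ⁻¹' V) ×ˢ (Subtype.val ⁻¹' U) ∈ 𝓝 ((a, b) : qc c × qc c) :=
      prod_mem_nhds ((hV.preimage continuous_subtype_val).mem_nhds haV)
        ((hU.preimage continuous_subtype_val).mem_nhds hbU)
    filter_upwards [h3] with q hq hq'
    have h4 : R q.2 q.1 := hUV _ hq.2 _ hq.1
    rcases hq' with h5 | h5
    · exact hR.ne h4 h5.symm
    · exact hR.asymm _ _ h5 h4
  have hcc : ∀ y : qc c, ∃ O ∈ 𝓝 y, ∀ z : ℕ → qc c, (∀ n, z n ∈ O) → ∃ p, CluP z p := by
    intro y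
    obtain ⟨O, hO, hyO, hOF⟩ := hF y
    refine ⟨Subtype.val ⁻¹' O, (hO.preimage continuous_subtype_val).mem_nhds hyO, ?_⟩
    intro z hz
    obtain ⟨p, hp⟩ := seq_clu hR hO hOF (fun n => (z n : X)) hz
    have hpc : p ∈ qc c := hp.mem_closed hCc (Eventually.of_forall fun n => (z n).2)
    refine ⟨⟨p, hpc⟩, ?_⟩
    intro U hU
    obtain ⟨V, hV, hVU⟩ := (mem_nhds_subtype _ _ _).1 hU
    exact (hp V hV).mono fun n hn => hVU hn
  have h := compact_of_ordered (Y := qc c) hcc ⟨m, hm⟩ ⟨s, hs⟩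
    (fun y => (hle _ _).2 (hm' y y.2))
    (fun y => (hle _ _).2 (by
      rcases hs' y y.2 with h | h
      · exact Or.inl h.symm
      · exact Or.inr h))
  exact isCompact_iff_isCompact_univ.2 h

/-! ## Clopen neighbourhoods of quasi-components -/

theorem clopen_side [T3Space X] {R : X → X → Prop} (hR : Good R) {c : X} {V V1 V2 : Set X}
    (hV1 : IsOpen V1) (hV2 : IsOpen V2) (hcV2 : qc c ⊆ V2) (h21 : closure V2 ⊆ V1)
    (h1V : V1 ⊆ V) (hseq : ∀ z : ℕ → X, (∀ n, z n ∈ closure V1) → ∃ p, CluP z p) :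
    ∃ Z : Set X, IsClopen Z ∧ c ∈ Z ∧ ∀ w ∈ Z, w ∉ qc c → R c w → w ∈ V := by
  by_contra hno
  push Not at hno
  have hfr : ∀ W : Set X, IsOpen W → qc c ⊆ W → W ⊆ V → ∀ Z : Set X, IsClopen Z → c ∈ Z →
      ∃ w ∈ Z, w ∉ qc c ∧ R c w ∧ w ∈ frontier W := by
    intro W hW hcW hWV Z hZ hcZ
    by_contra hemp
    push Not at hemp
    have hT : IsClopen (Z ∩ (W ∪ {w | w ∉ qc c ∧ R w c})) := by
      constructor
      · have h1 : (Z ∩ (W ∪ {w | w ∉ qc c ∧ R w c}))ᶜ =
            Zᶜ ∪ ((qc c)ᶜ ∩ {w | R c w} ∩ (closure W)ᶜ) := by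
          ext w
          constructor
          · intro hw
            by_cases hwZ : w ∈ Z
            · right
              have hwW : w ∉ W := fun h => hw ⟨hwZ, Or.inl h⟩
              have hwq : w ∉ qc c := fun h => hwW (hcW h)
              have hRw : R c w := by
                refine hR.of_not (fun h => hwq (h ▸ self_mem_qc c)) fun h => ?_
                exact hw ⟨hwZ, Or.inr ⟨hwq, h⟩⟩
              refine ⟨⟨hwq, hRw⟩, fun h => ?_⟩
              exact hemp w hwZ hwq hRw ⟨h, fun h' => hwW (interior_subset h')⟩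
            · exact Or.inl hwZ
          · rintro (hw | ⟨⟨_, hw2⟩, hw3⟩) ⟨h4, h5 | h5⟩
            · exact hw h4
            · exact hw h4
            · exact hw3 (subset_closure h5)
            · exact hR.asymm _ _ hw2 h5.2
        rw [← isOpen_compl_iff, h1]
        exact hZ.compl.isOpen.union
          (((isClosed_qc c).isOpen_compl.inter (hR.open_right c)).inter
            isClosed_closure.isOpen_compl)
      · exact hZ.isOpen.inter (hW.union ((isClosed_qc c).isOpen_compl.inter (hR.open_left c)))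
    obtain ⟨w, hw, hwq, hwR, hwV⟩ := hno _ hT ⟨hcZ, Or.inl (hcW (self_mem_qc c))⟩
    rcases hw.2 with h | h
    · exact hwV (hWV h)
    · exact hR.asymm _ _ hwR h.2
  have hsm : ∀ w : X, w ∉ qc c → R c w → ∃ E : Set X, IsClopen E ∧ c ∈ E ∧ ∀ y ∈ E, R y w := by
    intro w hw hcw
    obtain ⟨Z, hZ, hc, hwZ⟩ := exists_clopen_of_not_mem hw
    exact ⟨_, cut hR.op hZ hwZ, ⟨hc, hcw⟩, fun y hy => hy.2⟩
  have h12 : V2 ⊆ V1 := subset_closure.trans h21
  let P : X × X → Prop := fun u => (u.1 ∉ qc c ∧ R c u.1 ∧ u.1 ∈ frontier V1) ∧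
    (u.2 ∉ qc c ∧ R c u.2 ∧ u.2 ∈ frontier V2)
  let r : X × X → X × X → Prop := fun u v => R v.1 u.2 ∧ R v.2 u.1
  obtain ⟨f, hf1, hf2⟩ := exists_seq_of_forall_finset_exists P r (by
    intro s hs
    have hZ : ∃ Z : Set X, IsClopen Z ∧ c ∈ Z ∧ ∀ u ∈ s, ∀ y ∈ Z, R y u.1 ∧ R y u.2 := by
      have h1 : ∀ u ∈ s, ∃ E : Set X, IsClopen E ∧ c ∈ E ∧ ∀ y ∈ E, R y u.1 ∧ R y u.2 := by
        intro u hu
        obtain ⟨E1, hE1, hc1, h1⟩ := hsm u.1 (hs u hu).1.1 (hs u hu).1.2.1
        obtain ⟨E2, hE2, hc2, h2⟩ := hsm u.2 (hs u hu).2.1 (hs u hu).2.2.1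
        exact ⟨E1 ∩ E2, hE1.inter hE2, ⟨hc1, hc2⟩, fun y hy => ⟨h1 y hy.1, h2 y hy.2⟩⟩
      choose! E hE using h1
      refine ⟨⋂ u ∈ s, E u, isClopen_biInter_finset fun u hu => (hE u hu).1, ?_, ?_⟩
      · simp only [mem_iInter]
        exact fun u hu => (hE u hu).2.1
      · intro u hu y hy
        simp only [mem_iInter] at hy
        exact (hE u hu).2.2 y (hy u hu)
    obtain ⟨Z, hZc, hcZ, hZ⟩ := hZ
    obtain ⟨a, haZ, ha⟩ := hfr V1 hV1 (hcV2.trans h12) h1V Z hZc hcZ
    obtain ⟨b, hbZ, hb⟩ := hfr V2 hV2 hcV2 (h12.trans h1V) Z hZc hcZ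
    exact ⟨(a, b), ⟨ha, hb⟩, fun u hu => ⟨(hZ u hu a haZ).2, (hZ u hu b hbZ).1⟩⟩)
  obtain ⟨a, ha⟩ := hseq (fun n => (f n).1) (fun n => (hf1 n).1.2.2.1)
  obtain ⟨b, hb⟩ := hseq (fun n => (f n).2)
    (fun n => subset_closure (h21 (hf1 n).2.2.2.1))
  have ha1 : a ∈ frontier V1 := ha.mem_closed isClosed_frontier
    (Eventually.of_forall fun n => (hf1 n).1.2.2)
  have hb1 : b ∈ frontier V2 := hb.mem_closed isClosed_frontier
    (Eventually.of_forall fun n => (hf1 n).2.2.2)
  have hab : a ≠ b := by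
    rintro rfl
    exact ha1.2 (hV1.interior_eq.symm ▸ h21 hb1.1)
  rcases hR.tot a b hab with h | h
  · obtain ⟨U, W, hU, hW, haU, hbW, hUW⟩ := hR.loc a b h
    obtain ⟨n, hn⟩ := (ha U (hU.mem_nhds haU)).exists
    obtain ⟨k, hk1, hk2⟩ := ((hb W (hW.mem_nhds hbW)).and_eventually
      (eventually_gt_atTop n)).exists
    exact hR.asymm _ _ (hUW _ hn _ hk1) (hf2 n k hk2).2
  · obtain ⟨W, U, hW, hU, hbW, haU, hUW⟩ := hR.loc b a h
    obtain ⟨n, hn⟩ := (hb W (hW.mem_nhds hbW)).exists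
    obtain ⟨k, hk1, hk2⟩ := ((ha U (hU.mem_nhds haU)).and_eventually
      (eventually_gt_atTop n)).exists
    exact hR.asymm _ _ (hUW _ hn _ hk1) (hf2 n k hk2).1

theorem clopen_nbhd [T3Space X] {R : X → X → Prop} (hR : Good R) {c : X} {V V1 V2 : Set X}
    (hV1 : IsOpen V1) (hV2 : IsOpen V2) (hcV2 : qc c ⊆ V2) (h21 : closure V2 ⊆ V1)
    (h1V : V1 ⊆ V) (hseq : ∀ z : ℕ → X, (∀ n, z n ∈ closure V1) → ∃ p, CluP z p) :
    ∃ Z : Set X, IsClopen Z ∧ c ∈ Z ∧ Z ⊆ V := by
  obtain ⟨Z, hZ, hcZ, hZ'⟩ := clopen_side hR hV1 hV2 hcV2 h21 h1V hseq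
  obtain ⟨W, hW, hcW, hW'⟩ := clopen_side hR.op hV1 hV2 hcV2 h21 h1V hseq
  refine ⟨Z ∩ W, hZ.inter hW, ⟨hcZ, hcW⟩, ?_⟩
  intro w hw
  by_cases hwq : w ∈ qc c
  · exact h1V (h21 (subset_closure (hcV2 hwq)))
  · rcases hR.tot c w (fun h => hwq (h ▸ self_mem_qc c)) with h | h
    · exact hZ' w hw.1 hwq h
    · exact hW' w hw.2 hwq h

theorem Feeb.union {O O' : Set X} (h : Feeb O) (h' : Feeb O') (hO : IsOpen O)
    (hO' : IsOpen O') : Feeb (O ∪ O') := by
  intro G h1 h2 h3
  by_cases hfr : ∃ᶠ n in atTop, (G n ∩ O).Nonempty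
  · obtain ⟨φ, hφ, hφ'⟩ := extraction_of_frequently_atTop hfr
    obtain ⟨p, hp⟩ := h (fun n => G (φ n) ∩ O) (fun n => (h1 _).inter hO) hφ'
      (fun n => inter_subset_right)
    refine ⟨p, ?_⟩
    have h4 : Clu (G ∘ φ) p := hp.mono fun n => inter_subset_left
    exact h4.of_sub hφ
  · rw [not_frequently] at hfr
    have hfr' : ∀ᶠ n in atTop, (G n ∩ O').Nonempty := by
      filter_upwards [hfr] with n hn
      obtain ⟨x, hx⟩ := h2 n
      rcases h3 n hx with h4 | h4
      · exact absurd ⟨x, hx, h4⟩ hn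
      · exact ⟨x, hx, h4⟩
    obtain ⟨φ, hφ, hφ'⟩ := extraction_of_eventually_atTop hfr'
    obtain ⟨p, hp⟩ := h' (fun n => G (φ n) ∩ O') (fun n => (h1 _).inter hO') hφ'
      (fun n => inter_subset_right)
    refine ⟨p, ?_⟩
    have h4 : Clu (G ∘ φ) p := hp.mono fun n => inter_subset_left
    exact h4.of_sub hφ

/-! ## Small clopen sets -/

/-- Every point has a relatively feebly compact clopen neighbourhood outside of `U`. -/
def LC (U : Ultrafilter X) : Prop :=
  ∀ x : X, ∃ W : Set X, IsClopen W ∧ Feeb W ∧ x ∈ W ∧ W ∉ U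

theorem lc_of [T3Space X] (hX : Roy X) (hF : LF X) {R : X → X → Prop} (hR : Good R)
    (U : Ultrafilter X) (hU : ∀ x : X, ∃ V ∈ 𝓝 x, V ∉ U) : LC U := by
  intro c
  have hQ := qc_compact hX hF hR c
  have h1 : ∃ V : Set X, IsOpen V ∧ qc c ⊆ V ∧ Feeb V ∧ V ∉ U := by
    refine hQ.induction_on (p := fun K => ∃ V : Set X, IsOpen V ∧ K ⊆ V ∧ Feeb V ∧ V ∉ U)
      ?_ ?_ ?_ ?_
    · refine ⟨(∅ : Set X), isOpen_empty, Subset.rfl, ?_, Ultrafilter.empty_notMem⟩
      intro G _ h2 h3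
      obtain ⟨x, hx⟩ := h2 0
      exact absurd (h3 0 hx) (notMem_empty x)
    · rintro s t hst ⟨V, hV, htV, h2, h3⟩
      exact ⟨V, hV, hst.trans htV, h2, h3⟩
    · rintro s t ⟨V, hV, hsV, h2, h3⟩ ⟨V', hV', htV', h2', h3'⟩
      refine ⟨V ∪ V', hV.union hV', union_subset_union hsV htV', h2.union h2' hV hV', ?_⟩
      intro h
      rcases Ultrafilter.union_mem_iff.1 h with h | h
      · exact h3 h
      · exact h3' h
    · intro x _
      obtain ⟨O, hO, hxO, hOF⟩ := hF x
      obtain ⟨V, hV, hVU⟩ := hU x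
      refine ⟨interior V ∩ O, mem_nhdsWithin_of_mem_nhds
        ((isOpen_interior.inter hO).mem_nhds ⟨mem_interior_iff_mem_nhds.2 hV, hxO⟩),
        interior V ∩ O, isOpen_interior.inter hO, Subset.rfl, hOF.mono inter_subset_right, ?_⟩
      intro h
      exact hVU (Filter.mem_of_superset h (inter_subset_left.trans interior_subset))
  obtain ⟨V, hV, hcV, hVF, hVU⟩ := h1
  obtain ⟨V1, hV1, hcV1, h1V⟩ := hQ.exists_isOpen_closure_subset (hV.mem_nhdsSet.2 hcV)
  obtain ⟨V2, hV2, hcV2, h21⟩ := hQ.exists_isOpen_closure_subset (hV1.mem_nhdsSet.2 hcV1)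
  obtain ⟨Z, hZ, hcZ, hZV⟩ := clopen_nbhd hR hV1 hV2 hcV2 h21 (subset_closure.trans h1V)
    (fun z hz => seq_clu hR hV hVF z fun n => h1V (hz n))
  exact ⟨Z, hZ, hVF.mono hZV, hcZ, fun h => hVU (Filter.mem_of_superset h hZV)⟩

theorem ev_right [T2Space X] {R : X → X → Prop} (hR : Good R) {a b : X} (hab : a ≠ b) :
    ∀ᶠ b' in 𝓝 b, (R a b' ↔ R a b) := by
  rcases hR.tot a b hab with h | h
  · filter_upwards [(hR.open_right a).mem_nhds h] with y hy
    exact ⟨fun _ => h, fun _ => hy⟩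
  · filter_upwards [(hR.open_left a).mem_nhds h] with y hy
    exact ⟨fun h' => absurd hy (hR.asymm _ _ h'), fun h' => absurd h (hR.asymm _ _ h')⟩

open Classical in
theorem uniform_nhd [T2Space X] (hB : Bd X) {U : Ultrafilter X} (hL : LC U)
    {R : X → X → Prop} (hR : Good R) {W : Set X}
    (hW : IsClopen W) (hWc : Feeb W) {p : X} (hp : p ∈ W) :
    ∃ P : Set X, IsClopen P ∧ p ∈ P ∧ P ⊆ W ∧ ∀ x ∉ W, ∀ w ∈ P, (R x w ↔ R x p) := by
  let τ : X → Set X := fun x => if x ∈ W then W else {w | w ∈ W ∧ (R x w ↔ R x p)}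
  have hτ1 : ∀ x ∈ W, τ x = W := fun x hx => if_pos hx
  have hτ2 : ∀ x ∉ W, τ x = {w | w ∈ W ∧ (R x w ↔ R x p)} := fun x hx => if_neg hx
  have hclop : ∀ x, IsClopen (τ x) := by
    intro x
    by_cases hx : x ∈ W
    · rw [hτ1 x hx]; exact hW
    · rw [hτ2 x hx]
      have hop : IsOpen {w | w ∈ W ∧ (R x w ↔ R x p)} := by
        rw [isOpen_iff_mem_nhds]
        rintro w ⟨hw, hw'⟩
        have hne : x ≠ w := fun h => hx (h ▸ hw)
        filter_upwards [hW.isOpen.mem_nhds hw, ev_right hR hne] with w' h1 h2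
        exact ⟨h1, h2.trans hw'⟩
      have hcl : IsOpen {w | w ∈ W ∧ (R x w ↔ R x p)}ᶜ := by
        rw [isOpen_iff_mem_nhds]
        intro w hw
        by_cases hwW : w ∈ W
        · have hne : x ≠ w := fun h => hx (h ▸ hwW)
          filter_upwards [hW.isOpen.mem_nhds hwW, ev_right hR hne] with w' h1 h2
          rintro ⟨_, h4⟩
          exact hw ⟨hwW, h2.symm.trans h4⟩
        · filter_upwards [hW.compl.isOpen.mem_nhds hwW] with w' h1
          rintro ⟨h4, _⟩
          exact h1 h4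
      exact ⟨isOpen_compl_iff.1 hcl, hop⟩
  have hlc : IsLocallyConstant τ := by
    rw [IsLocallyConstant.iff_eventually_eq]
    intro x
    by_cases hx : x ∈ W
    · filter_upwards [hW.isOpen.mem_nhds hx] with y hy
      rw [hτ1 x hx, hτ1 y hy]
    · obtain ⟨Wx, hWx, hWxF, hxWx, _⟩ := hL x
      have hO : IsClopen (Wx ∩ Wᶜ) := hWx.inter hW.compl
      have hdis : Disjoint (closure (Wx ∩ Wᶜ)) (closure W) := by
        rw [hO.isClosed.closure_eq, hW.isClosed.closure_eq, Set.disjoint_left]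
        exact fun y hy => hy.2
      obtain ⟨U1, hU1, h1⟩ := tube hR hO.isOpen hW.isOpen (hWxF.mono inter_subset_left) hWc hdis
        ⟨hxWx, hx⟩ (A := {w | w ∈ W ∧ R x w}) (fun w hw => hw.1) (fun w hw => hw.2)
      obtain ⟨U2, hU2, h2⟩ := tube hR.op hO.isOpen hW.isOpen (hWxF.mono inter_subset_left) hWc
        hdis ⟨hxWx, hx⟩ (A := {w | w ∈ W ∧ R w x}) (fun w hw => hw.1) (fun w hw => hw.2)
      filter_upwards [hU1, hU2, hW.compl.isOpen.mem_nhds hx] with y hy1 hy2 hyW
      have hy : ∀ w ∈ W, (R y w ↔ R x w) := by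
        intro w hw
        have hne : x ≠ w := fun h => hx (h ▸ hw)
        constructor
        · intro h
          by_contra h'
          exact hR.asymm _ _ h (h2 y hy2 w ⟨hw, hR.of_not hne h'⟩)
        · intro h
          exact h1 y hy1 w ⟨hw, h⟩
      rw [hτ2 x hx, hτ2 y hyW]
      ext w
      constructor
      · rintro ⟨hw, hw'⟩
        exact ⟨hw, (hy w hw).symm.trans (hw'.trans (hy p hp))⟩
      · rintro ⟨hw, hw'⟩
        exact ⟨hw, (hy w hw).trans (hw'.trans (hy p hp).symm)⟩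
  have hfin := fin_range hB hlc
  refine ⟨W ∩ ⋂ S ∈ range τ, S, ?_, ?_, inter_subset_left, ?_⟩
  · refine hW.inter (hfin.isClopen_biInter ?_)
    rintro S ⟨x, rfl⟩
    exact hclop x
  · refine ⟨hp, ?_⟩
    simp only [mem_iInter]
    rintro S ⟨x, rfl⟩
    by_cases hx : x ∈ W
    · rw [hτ1 x hx]; exact hp
    · rw [hτ2 x hx]; exact ⟨hp, Iff.rfl⟩
  · rintro x hx w ⟨_, hw⟩
    simp only [mem_iInter] at hw
    have h1 := hw (τ x) ⟨x, rfl⟩
    rw [hτ2 x hx] at h1
    exact h1.2

open Classical in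
theorem finite_type [T2Space X] (hB : Bd X) {U : Ultrafilter X} (hL : LC U)
    {R : X → X → Prop} (hR : Good R) {D : Set X} (hD : IsClopen D) :
    ∃ F : Set X, F.Finite ∧ F ⊆ D ∧ ∀ w ∈ D, ∃ p ∈ F, ∀ x ∉ D, (R x w ↔ R x p) := by
  let τ : X → Set X := fun w => if w ∈ D then {x | x ∉ D ∧ R x w} else ∅
  have hτ1 : ∀ w ∈ D, τ w = {x | x ∉ D ∧ R x w} := fun x hx => if_pos hx
  have hτ2 : ∀ w ∉ D, τ w = ∅ := fun x hx => if_neg hx
  have hlc : IsLocallyConstant τ := by
    rw [IsLocallyConstant.iff_eventually_eq]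
    intro w
    by_cases hw : w ∈ D
    · obtain ⟨W, hW, hWc, hwW, _⟩ := hL w
      obtain ⟨P, hP, hwP, hPW, hPu⟩ := uniform_nhd hB hL hR (hW.inter hD)
        (hWc.mono inter_subset_left) (p := w) ⟨hwW, hw⟩
      filter_upwards [hP.isOpen.mem_nhds hwP] with y hy
      rw [hτ1 w hw, hτ1 y (hPW hy).2]
      ext x
      constructor
      · rintro ⟨h1, h2⟩
        exact ⟨h1, (hPu x (fun h => h1 h.2) y hy).1 h2⟩
      · rintro ⟨h1, h2⟩
        exact ⟨h1, (hPu x (fun h => h1 h.2) y hy).2 h2⟩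
    · filter_upwards [hD.compl.isOpen.mem_nhds hw] with y hy
      rw [hτ2 w hw, hτ2 y hy]
  have hfin := fin_range hB hlc
  obtain ⟨F, hFD, hF⟩ := Set.exists_subset_bijOn D τ
  refine ⟨F, ?_, hFD, ?_⟩
  · have h1 : (τ '' D).Finite := hfin.subset (image_subset_range _ _)
    exact (hF.finite_iff_finite).2 h1
  · intro w hw
    obtain ⟨p, hp, hpw⟩ := hF.surjOn (mem_image_of_mem τ hw)
    refine ⟨p, hp, fun x hx => ?_⟩
    rw [hτ1 w hw, hτ1 p (hFD hp)] at hpw
    have h1 : x ∈ {x | x ∉ D ∧ R x p} ↔ x ∈ {x | x ∉ D ∧ R x w} := by rw [hpw]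
    constructor
    · intro h2
      exact (h1.2 ⟨hx, h2⟩).2
    · intro h2
      exact (h1.1 ⟨hx, h2⟩).2

/-! ## Ends -/

theorem end_clopen [T2Space X] (hB : Bd X) {U : Ultrafilter X} (hL : LC U)
    {R : X → X → Prop} (hR : Good R) : IsClopen {x | ∀ᶠ y in (U : Filter X), R y x} := by
  have key : ∀ x : X, ∀ᶠ w in 𝓝 x, ((∀ᶠ y in (U : Filter X), R y w) ↔
      (∀ᶠ y in (U : Filter X), R y x)) := by
    intro x
    obtain ⟨W, hW, hWc, hxW, hWU⟩ := hL x
    obtain ⟨P, hP, hxP, hPW, hPu⟩ := uniform_nhd hB hL hR hW hWc hxW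
    filter_upwards [hP.isOpen.mem_nhds hxP] with w hw
    have hWU : ∀ᶠ y in (U : Filter X), y ∉ W := Ultrafilter.eventually_not.2 hWU
    constructor
    · intro h
      filter_upwards [h, hWU] with y h1 h2
      exact (hPu y h2 w hw).1 h1
    · intro h
      filter_upwards [h, hWU] with y h1 h2
      exact (hPu y h2 w hw).2 h1
  constructor
  · rw [← isOpen_compl_iff, isOpen_iff_mem_nhds]
    intro x hx
    filter_upwards [key x] with w hw h
    exact hx (hw.1 h)
  · rw [isOpen_iff_mem_nhds]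
    intro x hx
    filter_upwards [key x] with w hw
    exact hw.2 hx

theorem no_end_aux [T2Space X] (hX : Roy X) {R : X → X → Prop} (hR : Good R)
    {U : Ultrafilter X} (hL : LC U)
    (hS : {x | ∀ᶠ y in (U : Filter X), R y x} ∈ U) : False := by
  have hB := bd_of_roy hX hR
  set S : Set X := {x | ∀ᶠ y in (U : Filter X), R y x} with hSdef
  have hSc : IsClopen S := end_clopen hB hL hR
  obtain ⟨z, hzS, hz⟩ := king_in hX hR hSc (U.nonempty_of_mem hS)
  obtain ⟨W, hW, hWc, hzW, hWU⟩ := hL z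
  have hWU : ∀ᶠ y in (U : Filter X), y ∉ W := Ultrafilter.eventually_not.2 hWU
  have hA0 : IsClopen (W ∪ {y | R z y}) := by
    constructor
    · rw [← isOpen_compl_iff, isOpen_iff_mem_nhds]
      intro y hy
      have hyW : y ∉ W := fun h => hy (Or.inl h)
      have hne : z ≠ y := fun h => hyW (h ▸ hzW)
      filter_upwards [hW.compl.isOpen.mem_nhds hyW, ev_right hR hne] with y' h1 h2
      rintro (h3 | h3)
      · exact h1 h3
      · exact hy (Or.inr (h2.1 h3))
    · exact hW.isOpen.union (hR.open_right z)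
  set A : Set X := (W ∪ {y | R z y}) ∩ S with hAdef
  have hA : IsClopen A := hA0.inter hSc
  have hAU : ∀ᶠ y in (U : Filter X), y ∉ A := by
    have h1 : ∀ᶠ y in (U : Filter X), R y z := hzS
    filter_upwards [h1, hWU] with y h2 h3
    rintro ⟨h4 | h4, _⟩
    · exact h3 h4
    · exact hR.asymm _ _ h4 h2
  obtain ⟨F, hFfin, hFA, hF⟩ := finite_type hB hL hR hA
  have hFU : ∀ᶠ x in (U : Filter X), ∀ p ∈ F, R x p := by
    rw [eventually_all_finite hFfin]
    intro p hp
    exact (hFA hp).2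
  obtain ⟨x, hxF, hxA, hxS⟩ := (hFU.and (hAU.and hS)).exists
  obtain ⟨y, hyS, hy1, hy2⟩ := hz x hxS
  have hyA : y ∈ A := by
    refine ⟨?_, hyS⟩
    rcases hy1 with h | h
    · left; exact h ▸ hzW
    · right; exact h
  have hne : y ≠ x := fun h => hxA (h ▸ hyA)
  have hyx : R y x := hy2.resolve_left hne
  obtain ⟨p, hp, hpy⟩ := hF y hyA
  have hxy : R x y := (hpy x hxA).2 (hxF p hp)
  exact hR.asymm _ _ hyx hxy

theorem compact_of_lf [T3Space X] (hX : Roy X) (hF : LF X) {R : X → X → Prop} (hR : Good R) :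
    CompactSpace X := by
  constructor
  rw [isCompact_iff_ultrafilter_le_nhds]
  intro U _
  by_contra hno
  have hno' : ∀ c : X, ∃ V ∈ 𝓝 c, V ∉ U := by
    intro c
    by_contra h
    push Not at h
    exact hno ⟨c, mem_univ _, fun V hV => h V hV⟩
  have hL : LC U := lc_of hX hF hR U hno'
  rcases U.mem_or_compl_mem {x | ∀ᶠ y in (U : Filter X), R y x} with h | h
  · exact no_end_aux hX hR hL h
  · refine no_end_aux hX hR.op hL ?_
    filter_upwards [h] with x hx
    have h1 : ¬ ∀ᶠ y in (U : Filter X), R y x := hx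
    have h2 : ∀ᶠ y in (U : Filter X), ¬ R y x := Ultrafilter.eventually_not.2 h1
    obtain ⟨V, hV, hVU⟩ := hno' x
    have h3 : ∀ᶠ y in (U : Filter X), y ∉ V := Ultrafilter.eventually_not.2 hVU
    filter_upwards [h2, h3] with y h4 h5
    exact hR.of_not (fun h => h5 (h ▸ mem_of_mem_nhds hV)) h4

/-! ## Pseudocompactness -/

theorem feeb_of_pseudocompact [CompletelyRegularSpace X] {O : Set X}
    (hP : Pseudocompact (closure O)) : Feeb O := by
  intro G h1 h2 h3
  by_contra hno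
  have hno' : ∀ p : X, ∃ U ∈ 𝓝 p, {n | (G n ∩ U).Nonempty}.Finite := by
    intro p
    by_contra h
    apply hno
    refine ⟨p, fun U hU => ?_⟩
    rw [Nat.frequently_atTop_iff_infinite]
    intro hfin
    exact h ⟨U, hU, hfin⟩
  choose x hx using h2
  have hf : ∀ n, ∃ f : X → ℝ, Continuous f ∧ (∀ y, 0 ≤ f y) ∧ f (x n) = n ∧
      ∀ y ∉ G n, f y = 0 := by
    intro n
    obtain ⟨f, hfc, hf0, hf1⟩ := CompletelyRegularSpace.completely_regular (x n) (G n)ᶜ
      (h1 n).isClosed_compl (fun h => h (hx n))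
    refine ⟨fun y => (n : ℝ) * (1 - (f y : ℝ)), ?_, ?_, ?_, ?_⟩
    · exact continuous_const.mul (continuous_const.sub (continuous_subtype_val.comp hfc))
    · intro y
      exact mul_nonneg (Nat.cast_nonneg n) (sub_nonneg.2 (f y).2.2)
    · show (n : ℝ) * (1 - (f (x n) : ℝ)) = n
      rw [hf0]
      simp
    · intro y hy
      have : f y = 1 := hf1 hy
      simp [this]
  choose f hfc hf0 hfx hfG using hf
  have hlf : LocallyFinite fun n => Function.support (f n) := by
    intro p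
    obtain ⟨U, hU, hfin⟩ := hno' p
    refine ⟨U, hU, hfin.subset ?_⟩
    rintro n ⟨y, hy1, hy2⟩
    refine ⟨y, ?_, hy2⟩
    by_contra h
    exact hy1 (hfG n y h)
  have hcont : Continuous fun y => ∑ᶠ n, f n y := continuous_finsum hfc hlf
  obtain ⟨M, hM⟩ := hP (fun y => ∑ᶠ n, f n y) (hcont.comp continuous_subtype_val)
  obtain ⟨n, hn⟩ := exists_nat_gt M
  have h5 : f n (x n) ≤ ∑ᶠ k, f k (x n) := by
    refine single_le_finsum (f := fun k => f k (x n)) n ?_ (fun k => hf0 k _)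
    exact hlf.point_finite (x n)
  have h6 := hM ⟨x n, subset_closure (h3 n (hx n))⟩
  have h7 : ∑ᶠ k, f k (x n) ≤ M := (le_abs_self _).trans h6
  rw [hfx] at h5
  linarith

theorem pseudocompact_of_compact {Y : Type*} [TopologicalSpace Y] (h : CompactSpace Y) :
    Pseudocompact Y := by
  intro f hf
  obtain ⟨M, hM⟩ := (isCompact_range hf).isBounded.exists_norm_le
  exact ⟨M, fun y => hM _ ⟨y, rfl⟩⟩

theorem locallyPseudocompact_of_locallyCompact [T2Space X] [LocallyCompactSpace X] :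
    LocallyPseudocompact X := by
  intro x
  obtain ⟨K, hK, hxK⟩ := exists_compact_mem_nhds x
  refine ⟨interior K, isOpen_interior, mem_interior_iff_mem_nhds.2 hxK, ?_⟩
  refine pseudocompact_of_compact (isCompact_iff_compactSpace.1 ?_)
  exact hK.of_isClosed_subset isClosed_closure (closure_minimal interior_subset hK.isClosed)

/-- **Q2, affirmative.** Every locally pseudocompact Tychonoff king space which admits a
continuous weak selection is compact. -/
theorem q2 (X : Type*) [TopologicalSpace X] [T35Space X] (hloc : LocallyPseudocompact X)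
    (hking : KingSpace X) (hsel : HasSelection X) : CompactSpace X := by
  obtain ⟨φ, hφ, hφc⟩ := hsel
  refine compact_of_lf (roy_of_kingSpace hking) ?_ (good_of_selection hφ hφc)
  intro x
  obtain ⟨O, hO, hxO, hP⟩ := hloc x
  exact ⟨O, hO, hxO, feeb_of_pseudocompact hP⟩

/-- **Q1 and Q2, both affirmative.**
(1) Every locally compact Hausdorff king space which admits a continuous weak selection is
compact.
(2) Every locally pseudocompact Tychonoff king space which admits a continuous weak selection is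
compact. -/
theorem result :
    (∀ (X : Type*) [TopologicalSpace X] [T2Space X] [LocallyCompactSpace X],
      KingSpace X → HasSelection X → CompactSpace X) ∧
    (∀ (X : Type*) [TopologicalSpace X] [T35Space X],
      LocallyPseudocompact X → KingSpace X → HasSelection X → CompactSpace X) := by
  constructor
  · intro X _ _ _ hking hsel
    have : CompletelyRegularSpace X :=
      (OnePoint.isOpenEmbedding_coe (X := X)).isEmbedding.isInducing.completelyRegularSpace
    have : T35Space X := ⟨⟩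
    exact q2 X locallyPseudocompact_of_locallyCompact hking hsel
  · intro X _ _ hloc hking hsel
    exact q2 X hloc hking hsel

end Pool.Agent.Results.MP_abcfaf_gt.LocallyPseudocompactKing
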